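import Mathlib

/-!
# Definitions used in the statement on `MP_a3d4fe_al`

Cayley graphs, ends, quasi-rays, quasilines, coarse separation, splittings (actions on trees),
virtually infinite cyclic groups and virtual surface groups.
-/

set_option autoImplicit false

namespace Pool.Agent.Helper55.QRay

universe u v

/-- The Cayley graph of a group `G` with respect to `S`: vertices are the elements of `G`, and two
distinct elements `g`, `h` are adjacent iff `g⁻¹ h` or `h⁻¹ g` belongs to `S`. -/
def cayleyGraph {G : Type u} [Group G] (S : Set G) : SimpleGraph G :=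
  SimpleGraph.fromRel fun g h => g⁻¹ * h ∈ S

/-- A graph is one-ended if the complement of every finite set of vertices has exactly one
infinite connected component. -/
def OneEnded {V : Type u} (X : SimpleGraph V) : Prop :=
  ∀ K : Finset V, ∃! C : X.ComponentCompl (K : Set V), C.supp.Infinite

/-- `f` restricted to `D ⊆ ℝ` is a quasi-isometric embedding of `D` into (the vertex set of) the
graph `X` with its path metric. -/
def IsQIEmbeddingOn {V : Type u} (X : SimpleGraph V) (D : Set ℝ) (f : ℝ → V) : Prop :=
  ∃ L C : ℝ, 1 ≤ L ∧ 0 ≤ C ∧ ∀ s ∈ D, ∀ t ∈ D,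
    |s - t| / L - C ≤ (X.dist (f s) (f t) : ℝ) ∧ (X.dist (f s) (f t) : ℝ) ≤ L * |s - t| + C

/-- A quasiline: the image of a quasi-isometric embedding of `ℝ`. -/
def IsQuasiLine {V : Type u} (X : SimpleGraph V) (Y : Set V) : Prop :=
  ∃ f : ℝ → V, IsQIEmbeddingOn X Set.univ f ∧ Y = Set.range f

/-- A quasi-ray: the image of a quasi-isometric embedding of `[0, ∞)`. -/
def IsQuasiRay {V : Type u} (X : SimpleGraph V) (Y : Set V) : Prop :=
  ∃ f : ℝ → V, IsQIEmbeddingOn X (Set.Ici 0) f ∧ Y = f '' Set.Ici 0

/-- `Y` coarsely separates `X`: there are `r > 0` and two distinct components `C₁`, `C₂` of the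
complement of the `r`-neighbourhood of `Y` each of which contains points at distance `> R` from `Y`
for every `R`.  (In particular, for every `R > 0` at least two components of the complement of
the `r`-neighbourhood of `Y` contain points at distance `> R` from `Y`.) -/
def CoarselySeparates {V : Type u} (X : SimpleGraph V) (Y : Set V) : Prop :=
  ∃ r : ℕ, 0 < r ∧
    ∃ C₁ C₂ : (X.induce {v : V | ∀ y ∈ Y, r < X.dist v y}).ConnectedComponent, C₁ ≠ C₂ ∧
      ∀ R : ℕ, (∃ v ∈ C₁.supp, ∀ y ∈ Y, R < X.dist (v : V) y) ∧
        (∃ v ∈ C₂.supp, ∀ y ∈ Y, R < X.dist (v : V) y)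

/-- `G` splits over the subgroup `H`: `G` acts on a simplicial tree `T` without inversions and
without a global fixed point, with one orbit of edges, and `H` is the stabiliser of an edge. -/
def SplitsOver (G : Type u) [Group G] (H : Subgroup G) : Prop :=
  ∃ (V : Type v) (T : SimpleGraph V) (_ : MulAction G V),
    T.IsTree ∧
    (∀ (g : G) (a b : V), T.Adj a b → T.Adj (g • a) (g • b)) ∧
    (∀ (g : G) (a b : V), T.Adj a b → ¬ (g • a = b ∧ g • b = a)) ∧
    (¬ ∃ a : V, ∀ g : G, g • a = a) ∧
    (∀ a b a' b' : V, T.Adj a b → T.Adj a' b' →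
      ∃ g : G, (g • a = a' ∧ g • b = b') ∨ (g • a = b' ∧ g • b = a')) ∧
    ∃ a b : V, T.Adj a b ∧ ∀ g : G, g ∈ H ↔ (g • a = a ∧ g • b = b)

/-- Virtually `ℤ`: some subgroup of finite index is infinite cyclic. -/
def IsVirtuallyZ (H : Type u) [Group H] : Prop :=
  ∃ K : Subgroup H, K.FiniteIndex ∧ Nonempty (K ≃* Multiplicative ℤ)

/-- The defining relator `[a₁, b₁] ⋯ [a_g, b_g]` of the fundamental group of the closed orientable
surface of genus `g`. -/
def orientableRelator (g : ℕ) : FreeGroup (Fin g × Bool) :=
  (List.ofFn fun i : Fin g => FreeGroup.of (i, false) * FreeGroup.of (i, true) *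
    (FreeGroup.of (i, false))⁻¹ * (FreeGroup.of (i, true))⁻¹).prod

/-- The defining relator `a₁² ⋯ a_k²` of the fundamental group of the closed non-orientable
surface of non-orientable genus `k`. -/
def nonorientableRelator (k : ℕ) : FreeGroup (Fin k) :=
  (List.ofFn fun i : Fin k => FreeGroup.of i ^ 2).prod

/-- Fundamental groups of closed surfaces (by their standard presentations; `g = 0` is the sphere,
`k = 1` the projective plane). -/
def IsClosedSurfaceGroup (K : Type u) [Group K] : Prop :=
  (∃ g : ℕ, Nonempty (K ≃* PresentedGroup {orientableRelator g})) ∨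
  (∃ k : ℕ, 1 ≤ k ∧ Nonempty (K ≃* PresentedGroup {nonorientableRelator k}))

/-- Virtually a surface group: some subgroup of finite index is the fundamental group of a closed
surface. -/
def IsVirtuallySurfaceGroup (G : Type u) [Group G] : Prop :=
  ∃ K : Subgroup G, K.FiniteIndex ∧ IsClosedSurfaceGroup K

end Pool.Agent.Helper55.QRay
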