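import Pool.Agent.Helper55_QRay.Sep

/-!
# Groups with infinitely many central torsion elements are one-ended
-/

set_option autoImplicit false

namespace Pool.Agent.Helper55.QRay

open Relation
open scoped Pointwise

section
variable {G : Type*} [Group G] {S : Set G}

lemma cayley_adj_mul {g h : G} (k : G) (hadj : (cayleyGraph S).Adj g h) :
    (cayleyGraph S).Adj (k * g) (k * h) := by
  refine ⟨fun hh => hadj.1 (mul_left_cancel hh), ?_⟩
  rcases hadj.2 with h1 | h1
  · left
    change (k * g)⁻¹ * (k * h) ∈ S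
    rwa [mul_inv_rev, mul_assoc, inv_mul_cancel_left]
  · right
    change (k * h)⁻¹ * (k * g) ∈ S
    rwa [mul_inv_rev, mul_assoc, inv_mul_cancel_left]

lemma cayley_neighbor_finite (hS : S.Finite) (g : G) :
    ((cayleyGraph S).neighborSet g).Finite := by
  have : (cayleyGraph S).neighborSet g ⊆ (fun s => g * s) '' S ∪ (fun s => g * s⁻¹) '' S := by
    intro h hh
    rcases hh.2 with h1 | h1
    · left
      exact ⟨g⁻¹ * h, h1, by simp⟩
    · right
      exact ⟨h⁻¹ * g, h1, by simp⟩
  exact ((hS.image _).union (hS.image _)).subset this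

noncomputable instance cayley_locallyFinite (S : Finset G) :
    (cayleyGraph (S : Set G)).LocallyFinite :=
  fun g => (cayley_neighbor_finite S.finite_toSet g).fintype

end

/-- Points of a component of the complement of `K` are joined by paths inside the component. -/
lemma comp_path {V : Type*} {X : SimpleGraph V} {K : Set V} (C : X.ComponentCompl K) {x y : V}
    (hx : x ∈ C) (hy : y ∈ C) : ReflTransGen (fun a b => X.Adj a b ∧ b ∈ C) x y := by
  obtain ⟨hyK, rfl⟩ := hy
  obtain ⟨hxK, h⟩ := hx
  rw [SimpleGraph.ConnectedComponent.eq] at h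
  obtain ⟨p⟩ := h
  have key : ∀ (u v : (Kᶜ : Set V)) (p : (X.induce Kᶜ).Walk u v),
      ReflTransGen (fun a b => X.Adj a b ∧ b ∈ X.componentComplMk v.2) u.1 v.1 := by
    intro u v p
    induction p with
    | nil => exact ReflTransGen.refl
    | @cons u w v hadj p ih =>
      refine ReflTransGen.head ⟨hadj, ⟨w.2, ?_⟩⟩ ih
      rw [SimpleGraph.ConnectedComponent.eq]
      exact ⟨p⟩
  exact key _ _ p

/-- Key step: a central torsion element moving a connected finite set `K` off itself moves it into
every infinite component of the complement of `K`. -/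
lemma central_key {G : Type*} [Group G] (S : Set G) (hS : Subgroup.closure S = ⊤)
    (K : Set G) (hK : K.Finite) (hKne : K.Nonempty)
    (hKconn : ∀ a ∈ K, ∀ b ∈ K, ReflTransGen (fun a b => (cayleyGraph S).Adj a b ∧ b ∈ K) a b)
    (u : G) (hcent : ∀ g : G, u * g = g * u) (n : ℕ) (hn : 0 < n) (htors : u ^ n = 1)
    (hdisj : ∀ k ∈ K, u * k ∉ K)
    (C : (cayleyGraph S).ComponentCompl K) (hC : (C : Set G).Infinite) :
    ∃ k ∈ K, u * k ∈ C := by
  by_contra hcon
  push Not at hcon
  have hdisj' : ∀ k ∈ K, u⁻¹ * k ∉ K := by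
    intro k hk hk'
    apply hdisj _ hk'
    rwa [mul_inv_cancel_left]
  -- step 1
  obtain ⟨p, hp, hup⟩ : ∃ p ∈ C, u * p ∈ C := by
    obtain ⟨q⟩ := cayley_reachable S hS 1 u
    have hF : (K * (Set.image (fun w => w⁻¹) {w | w ∈ q.support})).Finite :=
      hK.mul ((List.finite_toSet _).image _)
    obtain ⟨p, hpC, hpF⟩ := (hC.sdiff hF).nonempty
    refine ⟨p, hpC, ?_⟩
    have key : ∀ (a b : G) (q : (cayleyGraph S).Walk a b), p * a ∈ C →
        (∀ w ∈ q.support, p * w ∉ K) → p * b ∈ C := by
      intro a b q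
      induction q with
      | nil => intro h _; exact h
      | @cons a w b hadj q ih =>
        intro h1 h2
        refine ih ?_ (fun w hw => h2 w (by simp [hw]))
        exact SimpleGraph.ComponentCompl.mem_of_adj (p * a) (p * w) h1
          (h2 w (by simp)) (cayley_adj_mul p hadj)
    rw [hcent]
    refine key 1 u q (by rwa [mul_one]) ?_
    intro w hw hpw
    exact hpF ⟨p * w, hpw, w⁻¹, ⟨w, hw, rfl⟩, by simp⟩
  -- step 2
  have step2 : ∀ x ∈ C, u⁻¹ * x ∈ C := by
    intro x hx
    have hpath := comp_path C hup hx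
    induction hpath with
    | refl => rwa [inv_mul_cancel_left]
    | @tail a b hab hb ih =>
      have ha : a ∈ C := by
        rcases ReflTransGen.cases_tail hab with h | ⟨c, _, hc⟩
        · rwa [h]
        · exact hc.2
      have iha := ih ha
      refine SimpleGraph.ComponentCompl.mem_of_adj (u⁻¹ * a) (u⁻¹ * b) iha ?_
        (cayley_adj_mul _ hb.1)
      intro hbK
      have := hcon _ hbK
      rw [mul_inv_cancel_left] at this
      exact this hb.2
  -- step 3
  have step3 : ∀ k ∈ K, u⁻¹ * k ∈ C := by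
    obtain ⟨⟨c, k0⟩, hc, hk0, hadj⟩ := C.exists_adj_boundary_pair
      (fun g h => cayley_reachable S hS g h) hKne
    have h0 : u⁻¹ * k0 ∈ C :=
      SimpleGraph.ComponentCompl.mem_of_adj (u⁻¹ * c) (u⁻¹ * k0) (step2 c hc) (hdisj' k0 hk0)
        (cayley_adj_mul _ hadj)
    intro k hk
    have hpath := hKconn k0 hk0 k hk
    induction hpath with
    | refl => exact h0
    | @tail a b hab hb ih =>
      have ha : a ∈ K := by
        rcases ReflTransGen.cases_tail hab with h | ⟨c, _, hc⟩
        · rwa [h]
        · exact hc.2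
      exact SimpleGraph.ComponentCompl.mem_of_adj (u⁻¹ * a) (u⁻¹ * b) (ih ha) (hdisj' b hb.2)
        (cayley_adj_mul _ hb.1)
  -- step 4
  obtain ⟨k, hk⟩ := hKne
  have step4 : ∀ m : ℕ, (u⁻¹) ^ (m + 1) * k ∈ C := by
    intro m
    induction m with
    | zero => rw [zero_add, pow_one]; exact step3 k hk
    | succ m ih =>
      rw [pow_succ', mul_assoc]
      exact step2 _ ih
  obtain ⟨m, rfl⟩ : ∃ m, n = m + 1 := ⟨n - 1, by omega⟩
  have h5 := step4 m
  rw [inv_pow, htors, inv_one, one_mul] at h5
  exact SimpleGraph.ComponentCompl.notMem_of_mem h5 hk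

/-- A finitely generated group with infinitely many central torsion elements is one-ended. -/
theorem oneEnded_of_central_torsion {G : Type*} [Group G] (S : Finset G)
    (hS : Subgroup.closure (S : Set G) = ⊤) (Z : Set G) (hZ : Z.Infinite)
    (hcent : ∀ u ∈ Z, ∀ g : G, u * g = g * u) (htors : ∀ u ∈ Z, ∃ n : ℕ, 0 < n ∧ u ^ n = 1) :
    OneEnded (cayleyGraph (S : Set G)) := by
  classical
  set X := cayleyGraph (S : Set G) with hX
  have hinf : Infinite G := Set.infinite_univ_iff.1 (hZ.mono (Set.subset_univ _))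
  have hconn : X.Connected := cayley_connected _ hS
  have : Fact X.Preconnected := ⟨hconn.preconnected⟩
  -- pigeonhole
  have pigeon : ∀ (K : Finset G) (A : Set G), A.Infinite → (∀ a ∈ A, a ∉ K) →
      ∃ D : X.ComponentCompl (K : Set G), ((D : Set G) ∩ A).Infinite := by
    intro K A hA hAK
    by_contra hcon
    push Not at hcon
    have hcov : A ⊆ ⋃ D : X.ComponentCompl (K : Set G), ((D : Set G) ∩ A) := by
      intro a ha
      rw [Set.mem_iUnion]
      refine ⟨X.componentComplMk (hAK a ha), X.componentComplMk_mem _, ha⟩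
    refine hA ((Set.finite_iUnion fun D => ?_).subset hcov)
    exact hcon D
  -- uniqueness for connected sets
  have uniq : ∀ K : Finset G, (K : Set G).Nonempty →
      (∀ a ∈ (K : Set G), ∀ b ∈ (K : Set G),
        ReflTransGen (fun a b => X.Adj a b ∧ b ∈ (K : Set G)) a b) →
      ∀ C D : X.ComponentCompl (K : Set G), (C : Set G).Infinite → (D : Set G).Infinite →
        C = D := by
    intro K hKne hKconn C D hC hD
    -- choose `u`
    have hbad : ((K : Set G) * (K : Set G)⁻¹).Finite := K.finite_toSet.mul K.finite_toSet.inv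
    obtain ⟨u, huZ, hu⟩ := (hZ.sdiff hbad).nonempty
    have hdisj : ∀ k ∈ (K : Set G), u * k ∉ (K : Set G) := by
      intro k hk hk'
      exact hu ⟨u * k, hk', k⁻¹, by simpa using hk, by simp⟩
    obtain ⟨n, hn, hun⟩ := htors u huZ
    obtain ⟨k1, hk1, h1⟩ := central_key (S : Set G) hS K K.finite_toSet hKne hKconn u
      (hcent u huZ) n hn hun hdisj C hC
    obtain ⟨k2, hk2, h2⟩ := central_key (S : Set G) hS K K.finite_toSet hKne hKconn u
      (hcent u huZ) n hn hun hdisj D hD
    have h3 : ∀ k ∈ (K : Set G), u * k ∈ C := by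
      intro k hk
      have hpath := hKconn k1 hk1 k hk
      induction hpath with
      | refl => exact h1
      | @tail a b hab hb ih =>
        have ha : a ∈ (K : Set G) := by
          rcases ReflTransGen.cases_tail hab with h | ⟨c, _, hc⟩
          · rwa [h]
          · exact hc.2
        exact SimpleGraph.ComponentCompl.mem_of_adj (u * a) (u * b) (ih ha) (hdisj b hb.2)
          (cayley_adj_mul _ hb.1)
    by_contra hne
    exact Set.disjoint_iff.1 (SimpleGraph.ComponentCompl.pairwise_disjoint hne) ⟨h3 k2 hk2, h2⟩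
  -- connected finite supersets
  have superset : ∀ K : Finset G, ∃ K' : Finset G, K ⊆ K' ∧ (K' : Set G).Nonempty ∧
      (∀ a ∈ (K' : Set G), ∀ b ∈ (K' : Set G),
        ReflTransGen (fun a b => X.Adj a b ∧ b ∈ (K' : Set G)) a b) := by
    intro K
    have hw : ∀ k : G, ∃ q : X.Walk 1 k, True := fun k =>
      ⟨(hconn.preconnected 1 k).some, trivial⟩
    choose q _ using hw
    let K' : Finset G := insert 1 (K.biUnion fun k => (q k).support.toFinset)
    have hwalk : ∀ (x y : G) (w : X.Walk x y), (∀ v ∈ w.support, v ∈ (K' : Set G)) →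
        ReflTransGen (fun a b => X.Adj a b ∧ b ∈ (K' : Set G)) x y := by
      intro x y w
      induction w with
      | nil => intro _; exact ReflTransGen.refl
      | @cons a b c hadj w ih =>
        intro h
        exact ReflTransGen.head ⟨hadj, h b (by simp)⟩ (ih fun v hv => h v (by simp [hv]))
    have hto : ∀ a ∈ (K' : Set G), ∃ w : X.Walk 1 a, ∀ v ∈ w.support, v ∈ (K' : Set G) := by
      intro a ha
      have ha' : a = 1 ∨ ∃ k ∈ K, a ∈ (q k).support := by
        simpa [K'] using ha
      rcases ha' with rfl | ⟨k, hk, hak⟩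
      · exact ⟨SimpleGraph.Walk.nil, by simp [K']⟩
      · refine ⟨(q k).takeUntil a hak, fun v hv => ?_⟩
        have hv' := (q k).support_takeUntil_subset_support hak hv
        simp only [K', Finset.coe_insert, Finset.coe_biUnion, Set.mem_insert_iff,
          Set.mem_iUnion, Finset.mem_coe, List.mem_toFinset]
        exact Or.inr ⟨k, hk, hv'⟩
    refine ⟨K', ?_, ⟨1, by simp [K']⟩, ?_⟩
    · intro k hk
      simp only [K', Finset.mem_insert, Finset.mem_biUnion, List.mem_toFinset]
      exact Or.inr ⟨k, hk, by simp⟩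
    · intro a ha b hb
      obtain ⟨wa, hwa⟩ := hto a ha
      obtain ⟨wb, hwb⟩ := hto b hb
      exact (hwalk _ _ wa.reverse (by simpa using hwa)).trans (hwalk _ _ wb hwb)
  intro K
  obtain ⟨D, hD⟩ := pigeon K ((K : Set G)ᶜ) K.finite_toSet.infinite_compl
    (fun a ha => by simpa using ha)
  refine ⟨D, hD.mono Set.inter_subset_left, ?_⟩
  intro C hC
  have hD' : (D : Set G).Infinite := hD.mono Set.inter_subset_left
  have hC' : (C : Set G).Infinite := hC
  obtain ⟨K', hKK', hne', hconn'⟩ := superset K
  obtain ⟨D1, hD1⟩ := pigeon K' ((D : Set G) \ K') (hD'.sdiff K'.finite_toSet)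
    (fun a ha => by simpa using ha.2)
  obtain ⟨C1, hC1⟩ := pigeon K' ((C : Set G) \ K') (hC'.sdiff K'.finite_toSet)
    (fun a ha => by simpa using ha.2)
  have heq : C1 = D1 := uniq K' hne' hconn' C1 D1 (hC1.mono Set.inter_subset_left)
    (hD1.mono Set.inter_subset_left)
  have hsub : (K : Set G) ⊆ (K' : Set G) := by exact_mod_cast hKK'
  have e1 : C1.hom hsub = C := by
    rw [SimpleGraph.ComponentCompl.hom_eq_iff_not_disjoint, Set.not_disjoint_iff]
    obtain ⟨x, hx⟩ := hC1.nonempty
    exact ⟨x, hx.1, hx.2.1⟩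
  have e2 : D1.hom hsub = D := by
    rw [SimpleGraph.ComponentCompl.hom_eq_iff_not_disjoint, Set.not_disjoint_iff]
    obtain ⟨x, hx⟩ := hD1.nonempty
    exact ⟨x, hx.1, hx.2.1⟩
  rw [← e1, ← e2, heq]

end Pool.Agent.Helper55.QRay
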