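import Mathlib

/-!
# The group `A` of the counterexample to (b) and (c)

`A` consists of the quadruples `(x, y, c, n)` with `x, y, c` Laurent polynomials over the
field with two elements and `n` an integer.  It is a lamplighter group with two kinds of lamps, with
a central extension: its central elements `(0,0,c,0)` measure commutators of lamps.
-/

set_option autoImplicit false

namespace Pool.Agent.Helper55.QRay

open LaurentPolynomial

/-- Laurent polynomials over the field with two elements. -/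
abbrev R := LaurentPolynomial (ZMod 2)

/-- Underlying type of the group `A`. -/
@[ext] structure A where
  x : R
  y : R
  c : R
  n : ℤ

namespace A

noncomputable instance : Mul A :=
  ⟨fun p q => ⟨p.x + T (-p.n) * q.x, p.y + T p.n * q.y, p.c + q.c + p.x * (T p.n * q.y),
    p.n + q.n⟩⟩

noncomputable instance : One A := ⟨⟨0, 0, 0, 0⟩⟩

noncomputable instance : Inv A :=
  ⟨fun p => ⟨-(T p.n * p.x), -(T (-p.n) * p.y), -p.c + p.x * p.y, -p.n⟩⟩

@[simp] lemma mul_x (p q : A) : (p * q).x = p.x + T (-p.n) * q.x := rfl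
@[simp] lemma mul_y (p q : A) : (p * q).y = p.y + T p.n * q.y := rfl
@[simp] lemma mul_c (p q : A) : (p * q).c = p.c + q.c + p.x * (T p.n * q.y) := rfl
@[simp] lemma mul_n (p q : A) : (p * q).n = p.n + q.n := rfl
@[simp] lemma one_x : (1 : A).x = 0 := rfl
@[simp] lemma one_y : (1 : A).y = 0 := rfl
@[simp] lemma one_c : (1 : A).c = 0 := rfl
@[simp] lemma one_n : (1 : A).n = 0 := rfl
@[simp] lemma inv_x (p : A) : (p⁻¹).x = -(T p.n * p.x) := rfl
@[simp] lemma inv_y (p : A) : (p⁻¹).y = -(T (-p.n) * p.y) := rfl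
@[simp] lemma inv_c (p : A) : (p⁻¹).c = -p.c + p.x * p.y := rfl
@[simp] lemma inv_n (p : A) : (p⁻¹).n = -p.n := rfl

lemma TT (m : ℤ) : (T m : R) * T (-m) = 1 := by rw [← T_add]; simp
lemma TT' (m : ℤ) : (T (-m) : R) * T m = 1 := by rw [← T_add]; simp

noncomputable instance : Group A :=
  Group.ofLeftAxioms
    (by
      intro p q r
      ext1
      · simp only [mul_x, mul_n, neg_add, T_add]; ring
      · simp only [mul_y, mul_n, T_add]; ring
      · simp only [mul_c, mul_x, mul_y, mul_n, T_add]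
        have h := TT' p.n
        linear_combination (T q.n * r.y * q.x) * h
      · simp only [mul_n]; ring)
    (by
      intro p
      ext1
      · simp
      · simp
      · simp
      · simp)
    (by
      intro p
      ext1
      · simp only [mul_x, inv_x, inv_n, one_x, neg_neg]; ring
      · simp only [mul_y, inv_y, inv_n, one_y]; ring
      · simp only [mul_c, inv_c, inv_x, inv_n, one_c]
        have h := TT p.n
        linear_combination (-p.x * p.y) * h
      · simp)

/-- relative position -/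
lemma inv_mul_x (p q : A) : (p⁻¹ * q).x = T p.n * (q.x - p.x) := by
  simp only [mul_x, inv_x, inv_n, neg_neg]; ring

lemma inv_mul_y (p q : A) : (p⁻¹ * q).y = T (-p.n) * (q.y - p.y) := by
  simp only [mul_y, inv_y, inv_n]; ring

lemma inv_mul_c (p q : A) : (p⁻¹ * q).c = q.c - p.c - p.x * (q.y - p.y) := by
  simp only [mul_c, inv_c, inv_x, inv_n]
  have h := TT p.n
  linear_combination (-p.x * q.y) * h

lemma inv_mul_n (p q : A) : (p⁻¹ * q).n = q.n - p.n := by
  simp only [mul_n, inv_n]; ring

/-- The generators. -/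
noncomputable def X : A := ⟨1, 0, 0, 0⟩
noncomputable def Y : A := ⟨0, 1, 0, 0⟩
noncomputable def t : A := ⟨0, 0, 0, 1⟩

lemma R_add_self (f : R) : f + f = 0 := by
  ext a
  rw [AddMonoidAlgebra.coeff_add]
  simp only [Finsupp.add_apply, AddMonoidAlgebra.coeff_zero, Finsupp.coe_zero, Pi.zero_apply]
  exact CharTwo.add_self_eq_zero _

lemma R_neg (f : R) : -f = f := by
  have := R_add_self f
  linear_combination -this

lemma X_mul_X : X * X = 1 := by
  ext1 <;> simp [X, R_add_self]

lemma Y_mul_Y : Y * Y = 1 := by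
  ext1 <;> simp [Y, R_add_self]

lemma mul_X (g : A) : g * X = ⟨g.x + T (-g.n), g.y, g.c, g.n⟩ := by
  ext1 <;> simp [X]

lemma mul_Y (g : A) : g * Y = ⟨g.x, g.y + T g.n, g.c + g.x * T g.n, g.n⟩ := by
  ext1 <;> simp [Y]

lemma mul_t (g : A) : g * t = ⟨g.x, g.y, g.c, g.n + 1⟩ := by
  ext1 <;> simp [t]

lemma mul_t_inv (g : A) : g * t⁻¹ = ⟨g.x, g.y, g.c, g.n - 1⟩ := by
  ext1 <;> simp [t, sub_eq_add_neg]

lemma coeff_T_mul (f : R) (m d : ℤ) : (T m * f).coeff d = f.coeff (d - m) := by
  rw [T_mul]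
  have h := AddMonoidAlgebra.coeff_mul_single_apply f (1 : ZMod 2) m d
  rw [mul_one, ← sub_eq_add_neg] at h
  exact h

lemma coeff_mul_T (f : R) (m d : ℤ) : (f * T m).coeff d = f.coeff (d - m) := by
  rw [← T_mul, coeff_T_mul]

/-- Length bounds: every element `g` that is a product of at most `l` generators satisfies
`Bd l g`. -/
def Bd (l : ℤ) (g : A) : Prop :=
  |g.n| ≤ l ∧ (∀ m : ℤ, g.x.coeff (-m) ≠ 0 → |m| + |m - g.n| ≤ l) ∧
    (∀ m : ℤ, g.y.coeff m ≠ 0 → |m| + |m - g.n| ≤ l) ∧ (∀ d : ℤ, g.c.coeff d ≠ 0 → |d| ≤ l)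

lemma Bd_one : Bd 0 1 := by
  refine ⟨by simp, ?_, ?_, ?_⟩ <;> intro m hm <;> simp at hm

lemma Bd.mono {l l' : ℤ} {g : A} (h : Bd l g) (hl : l ≤ l') : Bd l' g :=
  ⟨h.1.trans hl, fun m hm => (h.2.1 m hm).trans hl, fun m hm => (h.2.2.1 m hm).trans hl,
    fun m hm => (h.2.2.2 m hm).trans hl⟩

lemma Bd.mul_X {l : ℤ} {g : A} (h : Bd l g) : Bd (l + 1) (g * X) := by
  rw [A.mul_X]
  refine ⟨?_, ?_, ?_, ?_⟩
  · have := h.1; dsimp only; omega
  · intro m hm
    dsimp only at hm ⊢
    rw [AddMonoidAlgebra.coeff_add, Finsupp.add_apply, T_apply] at hm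
    by_cases hmn : m = g.n
    · subst hmn
      have := h.1
      simp only [sub_self, abs_zero]; omega
    · have : ¬ (-g.n = -m) := fun h => hmn (by omega)
      rw [if_neg this, add_zero] at hm
      have := h.2.1 m hm
      omega
  · intro m hm
    have := h.2.2.1 m hm
    dsimp only; omega
  · intro m hm
    have := h.2.2.2 m hm
    omega

lemma Bd.mul_Y {l : ℤ} {g : A} (h : Bd l g) : Bd (l + 1) (g * Y) := by
  rw [A.mul_Y]
  refine ⟨?_, ?_, ?_, ?_⟩
  · have := h.1; dsimp only; omega
  · intro m hm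
    have := h.2.1 m hm
    dsimp only; omega
  · intro m hm
    dsimp only at hm ⊢
    rw [AddMonoidAlgebra.coeff_add, Finsupp.add_apply, T_apply] at hm
    by_cases hmn : m = g.n
    · subst hmn
      have := h.1
      simp only [sub_self, abs_zero]; omega
    · have : ¬ (g.n = m) := fun h => hmn (by omega)
      rw [if_neg this, add_zero] at hm
      have := h.2.2.1 m hm
      omega
  · intro d hd
    dsimp only at hd
    rw [AddMonoidAlgebra.coeff_add, Finsupp.add_apply, coeff_mul_T] at hd
    by_cases hc : g.c.coeff d = 0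
    · rw [hc, zero_add] at hd
      have hx := h.2.1 (g.n - d) (by rwa [neg_sub])
      have h1 : |g.n - d - g.n| = |d| := by
        rw [show g.n - d - g.n = -d by ring, abs_neg]
      have h2 := abs_nonneg (g.n - d)
      omega
    · have := h.2.2.2 d hc
      omega

lemma Bd.mul_t {l : ℤ} {g : A} (h : Bd l g) : Bd (l + 1) (g * t) := by
  rw [A.mul_t]
  refine ⟨?_, ?_, ?_, ?_⟩
  · have := h.1
    dsimp only
    have h2 := abs_add_le g.n 1
    rw [abs_one] at h2
    omega
  · intro m hm
    have := h.2.1 m hm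
    dsimp only
    have h2 := abs_sub_le m g.n (g.n + 1)
    rw [show g.n - (g.n + 1) = -1 by ring, abs_neg, abs_one] at h2
    omega
  · intro m hm
    have := h.2.2.1 m hm
    dsimp only
    have h2 := abs_sub_le m g.n (g.n + 1)
    rw [show g.n - (g.n + 1) = -1 by ring, abs_neg, abs_one] at h2
    omega
  · intro m hm
    have := h.2.2.2 m hm
    omega

lemma Bd.mul_t_inv {l : ℤ} {g : A} (h : Bd l g) : Bd (l + 1) (g * t⁻¹) := by
  rw [A.mul_t_inv]
  refine ⟨?_, ?_, ?_, ?_⟩
  · have := h.1
    dsimp only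
    have h2 := abs_sub_le g.n 0 1
    simp only [sub_zero, zero_sub, abs_neg, abs_one] at h2
    omega
  · intro m hm
    have := h.2.1 m hm
    dsimp only
    have h2 := abs_sub_le m g.n (g.n - 1)
    rw [show g.n - (g.n - 1) = 1 by ring, abs_one] at h2
    omega
  · intro m hm
    have := h.2.2.1 m hm
    dsimp only
    have h2 := abs_sub_le m g.n (g.n - 1)
    rw [show g.n - (g.n - 1) = 1 by ring, abs_one] at h2
    omega
  · intro m hm
    have := h.2.2.2 m hm
    omega

end A

end Pool.Agent.Helper55.QRay
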