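import Pool.Agent.Helper55_QRay.Defs
import Pool.Agent.Helper55_QRay.GroupA

/-!
# The group `G = F(A/E) ⋊ A`
-/

set_option autoImplicit false

namespace Pool.Agent.Helper55.QRay

open LaurentPolynomial

namespace A

/-- pure translation -/
noncomputable def tp (n : ℤ) : A := ⟨0, 0, 0, n⟩

lemma tp_eq_zpow (n : ℤ) : tp n = t ^ n := by
  induction n using Int.induction_on with
  | zero => rfl
  | succ k ih =>
    rw [zpow_add_one, ← ih, mul_t]; rfl
  | pred k ih =>
    rw [zpow_sub_one, ← ih, mul_t_inv]; rfl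

lemma generate (H : Subgroup A) (hX : X ∈ H) (hY : Y ∈ H) (ht : t ∈ H) : ∀ g : A, g ∈ H := by
  have htp : ∀ n : ℤ, tp n ∈ H := fun n => by rw [tp_eq_zpow]; exact H.zpow_mem ht n
  have hx1 : ∀ m : ℤ, (⟨T m, 0, 0, 0⟩ : A) ∈ H := by
    intro m
    have : (⟨T m, 0, 0, 0⟩ : A) = tp (-m) * X * tp m := by
      ext1 <;> simp [tp, X]
    rw [this]
    exact H.mul_mem (H.mul_mem (htp _) hX) (htp _)
  have hy1 : ∀ m : ℤ, (⟨0, T m, 0, 0⟩ : A) ∈ H := by
    intro m
    have : (⟨0, T m, 0, 0⟩ : A) = tp m * Y * tp (-m) := by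
      ext1 <;> simp [tp, Y]
    rw [this]
    exact H.mul_mem (H.mul_mem (htp _) hY) (htp _)
  have hc1 : ∀ d : ℤ, (⟨0, 0, T d, 0⟩ : A) ∈ H := by
    intro d
    have : (⟨0, 0, T d, 0⟩ : A) = X * ⟨0, T d, 0, 0⟩ * X * ⟨0, T d, 0, 0⟩ := by
      ext1 <;> simp [X, R_add_self]
    rw [this]
    exact H.mul_mem (H.mul_mem (H.mul_mem hX (hy1 d)) hX) (hy1 d)
  have hz2 : ∀ a : ZMod 2, a = 0 ∨ a = 1 := by decide
  have hx : ∀ x : R, (⟨x, 0, 0, 0⟩ : A) ∈ H := by
    intro x
    refine x.induction_on' ?_ ?_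
    · intro p q hp hq
      have : (⟨p + q, 0, 0, 0⟩ : A) = ⟨p, 0, 0, 0⟩ * ⟨q, 0, 0, 0⟩ := by
        ext1 <;> simp
      rw [this]; exact H.mul_mem hp hq
    · intro n a
      rcases hz2 a with rfl | rfl
      · simp only [map_zero, zero_mul]; exact H.one_mem
      · simp only [map_one, one_mul]; exact hx1 n
  have hy : ∀ y : R, (⟨0, y, 0, 0⟩ : A) ∈ H := by
    intro x
    refine x.induction_on' ?_ ?_
    · intro p q hp hq
      have : (⟨0, p + q, 0, 0⟩ : A) = ⟨0, p, 0, 0⟩ * ⟨0, q, 0, 0⟩ := by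
        ext1 <;> simp
      rw [this]; exact H.mul_mem hp hq
    · intro n a
      rcases hz2 a with rfl | rfl
      · simp only [map_zero, zero_mul]; exact H.one_mem
      · simp only [map_one, one_mul]; exact hy1 n
  have hc : ∀ c : R, (⟨0, 0, c, 0⟩ : A) ∈ H := by
    intro x
    refine x.induction_on' ?_ ?_
    · intro p q hp hq
      have : (⟨0, 0, p + q, 0⟩ : A) = ⟨0, 0, p, 0⟩ * ⟨0, 0, q, 0⟩ := by
        ext1 <;> simp
      rw [this]; exact H.mul_mem hp hq
    · intro n a
      rcases hz2 a with rfl | rfl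
      · simp only [map_zero, zero_mul]; exact H.one_mem
      · simp only [map_one, one_mul]; exact hc1 n
  intro g
  have : g = ⟨0, 0, g.c, 0⟩ * ⟨0, g.y, 0, 0⟩ * ⟨g.x, 0, 0, 0⟩ * tp g.n := by
    ext1 <;> simp [tp]
  rw [this]
  exact H.mul_mem (H.mul_mem (H.mul_mem (hc _) (hy _)) (hx _)) (htp _)

/-- The central subgroup `E`. -/
noncomputable def E : Subgroup A where
  carrier := {g | g.x = 0 ∧ g.y = 0 ∧ g.n = 0 ∧
    ∀ d : ℤ, g.c.coeff d ≠ 0 → ∃ i : ℕ, d = 4 ^ i}
  mul_mem' := by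
    rintro p q ⟨h1, h2, h3, h4⟩ ⟨k1, k2, k3, k4⟩
    refine ⟨by simp [h1, k1], by simp [h2, k2], by simp [h3, k3], ?_⟩
    intro d hd
    have hc : (p * q).c = p.c + q.c := by simp [h1]
    rw [hc, AddMonoidAlgebra.coeff_add, Finsupp.add_apply] at hd
    by_cases h : p.c.coeff d = 0
    · rw [h, zero_add] at hd
      exact k4 d hd
    · exact h4 d h
  one_mem' := by
    refine ⟨rfl, rfl, rfl, ?_⟩
    intro d hd; simp at hd
  inv_mem' := by
    rintro p ⟨h1, h2, h3, h4⟩
    refine ⟨by simp [h1], by simp [h2], by simp [h3], ?_⟩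
    intro d hd
    have hc : (p⁻¹).c = p.c := by simp [h1, R_neg]
    rw [hc] at hd
    exact h4 d hd

lemma mem_E {g : A} : g ∈ E ↔ g.x = 0 ∧ g.y = 0 ∧ g.n = 0 ∧
    ∀ d : ℤ, g.c.coeff d ≠ 0 → ∃ i : ℕ, d = 4 ^ i := Iff.rfl

lemma E_central {e : A} (he : e ∈ E) (g : A) : e * g = g * e := by
  obtain ⟨h1, h2, h3, -⟩ := he
  ext1
  · simp [h1, h3]
  · simp [h2, h3]
  · simp [h1, h2, add_comm]
  · simp [h3]

lemma E_sq {e : A} (he : e ∈ E) : e * e = 1 := by
  obtain ⟨h1, h2, h3, -⟩ := he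
  ext1
  · simp [h1]
  · simp [h2]
  · simp [h1, R_add_self]
  · simp [h3]

end A

open A

/-- The set of cosets. -/
abbrev Q := A ⧸ E

/-- The base coset. -/
noncomputable def q0 : Q := ((1 : A) : Q)

lemma smul_q0 (a : A) : a • q0 = (a : Q) := by
  change ((a * 1 : A) : Q) = _
  rw [mul_one]

lemma E_smul {e : A} (he : e ∈ E) (q : Q) : e • q = q := by
  induction q using Quotient.inductionOn' with
  | h a =>
    change ((e * a : A) : Q) = (a : Q)
    rw [E_central he, QuotientGroup.eq]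
    simpa using E.inv_mem he

lemma mk_eq_q0 {a : A} : (a : Q) = q0 ↔ a ∈ E := by
  unfold q0
  rw [eq_comm, QuotientGroup.eq]
  simp

/-- The action of `A` on the free group over the coset space. -/
noncomputable def φ : A →* MulAut (FreeGroup Q) where
  toFun a := FreeGroup.freeGroupCongr (MulAction.toPerm a)
  map_one' := by
    apply MulEquiv.ext
    intro w
    have : (MulAction.toPerm (1 : A) : Equiv.Perm Q) = Equiv.refl Q := by
      ext q; simp
    rw [this, FreeGroup.freeGroupCongr_refl]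
    rfl
  map_mul' a b := by
    apply MulEquiv.ext
    intro w
    have : (MulAction.toPerm (a * b) : Equiv.Perm Q) =
        (MulAction.toPerm b : Equiv.Perm Q).trans (MulAction.toPerm a) := by
      ext q; simp [mul_smul]
    rw [this, ← FreeGroup.freeGroupCongr_trans]
    rfl

lemma φ_of (a : A) (q : Q) : φ a (FreeGroup.of q) = FreeGroup.of (a • q) := by
  change FreeGroup.map _ (FreeGroup.of q) = _
  rw [FreeGroup.map.of]; rfl

lemma φ_E {e : A} (he : e ∈ E) : φ e = 1 := by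
  apply MulEquiv.ext
  intro w
  have : (MulAction.toPerm e : Equiv.Perm Q) = Equiv.refl Q := by
    ext q; simp [E_smul he]
  change FreeGroup.freeGroupCongr (MulAction.toPerm e : Equiv.Perm Q) w = w
  rw [this, FreeGroup.freeGroupCongr_refl]
  rfl

/-- The group of the counterexample. -/
abbrev GG := FreeGroup Q ⋊[φ] A

open SemidirectProduct

/-- The stable letter. -/
noncomputable def z : GG := inl (FreeGroup.of q0)

/-- The generating set. -/
noncomputable def S : Finset GG := by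
  classical exact {inr X, inr Y, inr t, z}

lemma mem_S {g : GG} : g ∈ (S : Set GG) ↔ g = inr X ∨ g = inr Y ∨ g = inr t ∨ g = z := by
  classical
  simp [S]

lemma closure_S : Subgroup.closure (S : Set GG) = ⊤ := by
  rw [eq_top_iff]
  set H := Subgroup.closure (S : Set GG) with hH
  have hmem : ∀ s ∈ (S : Set GG), s ∈ H := fun s hs => Subgroup.subset_closure hs
  have hr : ∀ a : A, (inr a : GG) ∈ H := by
    intro a
    have := generate (H.comap (inr : A →* GG)) (hmem _ (mem_S.2 (by simp)))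
      (hmem _ (mem_S.2 (by simp))) (hmem _ (mem_S.2 (by simp))) a
    exact this
  have hz : z ∈ H := hmem _ (mem_S.2 (by simp))
  have hl1 : ∀ q : Q, (inl (FreeGroup.of q) : GG) ∈ H := by
    intro q
    induction q using Quotient.inductionOn' with
    | h a =>
      have h1 : (inl (FreeGroup.of (a : Q)) : GG) = inr a * z * inr a⁻¹ := by
        rw [z, ← inl_aut, φ_of, smul_q0]
      change (inl (FreeGroup.of (a : Q)) : GG) ∈ H
      rw [h1]
      exact H.mul_mem (H.mul_mem (hr a) hz) (hr _)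
  have hl : ∀ w : FreeGroup Q, (inl w : GG) ∈ H := by
    intro w
    induction w using FreeGroup.induction_on with
    | C1 => rw [map_one]; exact H.one_mem
    | of q => exact hl1 q
    | inv_of q _ => rw [map_inv]; exact H.inv_mem (hl1 q)
    | mul x y hx hy => rw [map_mul]; exact H.mul_mem hx hy
  intro g _
  rw [← inl_left_mul_inr_right g]
  exact H.mul_mem (hl _) (hr _)

/-- The Cayley graph of `GG`. -/
noncomputable abbrev XG : SimpleGraph GG := cayleyGraph (S : Set GG)

lemma XG_adj {g h : GG} : XG.Adj g h ↔ g ≠ h ∧ (g⁻¹ * h ∈ (S : Set GG) ∨ h⁻¹ * g ∈ (S : Set GG)) :=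
  Iff.rfl

/-- Length bound along edges. -/
lemma Bd_adj {l : ℤ} {o g h : GG} (hadj : XG.Adj g h) (hb : Bd l (o⁻¹ * g).right) :
    Bd (l + 1) (o⁻¹ * h).right := by
  have key : ∀ s ∈ (S : Set GG), ∀ g' : GG, Bd l g'.right →
      Bd (l + 1) (g' * s).right ∧ Bd (l + 1) (g' * s⁻¹).right := by
    intro s hs g' hg'
    rcases mem_S.1 hs with rfl | rfl | rfl | rfl
    · rw [← map_inv, inv_eq_of_mul_eq_one_right X_mul_X]
      exact ⟨hg'.mul_X, hg'.mul_X⟩
    · rw [← map_inv, inv_eq_of_mul_eq_one_right Y_mul_Y]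
      exact ⟨hg'.mul_Y, hg'.mul_Y⟩
    · rw [← map_inv]
      exact ⟨hg'.mul_t, hg'.mul_t_inv⟩
    · have h1 : (g' * z).right = g'.right := by simp [z]
      have h2 : (g' * z⁻¹).right = g'.right := by simp [z]
      rw [h1, h2]
      exact ⟨hg'.mono (by omega), hg'.mono (by omega)⟩
  rcases hadj.2 with hs | hs
  · have := (key _ hs _ hb).1
    rwa [mul_assoc, mul_inv_cancel_left] at this
  · have := (key _ hs _ hb).2
    rwa [mul_inv_rev, inv_inv, mul_assoc, mul_inv_cancel_left] at this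

lemma Bd_walk {g h : GG} (p : XG.Walk g h) : ∀ (l : ℤ) (o : GG), Bd l (o⁻¹ * g).right →
    Bd (l + p.length) (o⁻¹ * h).right := by
  induction p with
  | nil => intro l o h; simpa using h
  | cons hadj p ih =>
    intro l o h
    have := ih (l + 1) o (Bd_adj hadj h)
    rw [SimpleGraph.Walk.length_cons]
    push_cast
    rwa [add_assoc, add_comm (1 : ℤ)] at this

end Pool.Agent.Helper55.QRay
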