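import Pool.Agent.Helper55_QRay.GroupG

/-!
# Separation of the Cayley graph by the central subgroup `E`
-/

set_option autoImplicit false

namespace Pool.Agent.Helper55.QRay

open SemidirectProduct A

/-- A Cayley graph with respect to a generating set is connected. -/
lemma cayley_reachable {G : Type*} [Group G] (S : Set G) (hS : Subgroup.closure S = ⊤) (g h : G) :
    (cayleyGraph S).Reachable g h := by
  have h1 : ∀ s ∈ S, ∀ g : G, (cayleyGraph S).Reachable g (g * s) := by
    intro s hs g
    by_cases hg : g = g * s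
    · rw [← hg]
    · refine SimpleGraph.Adj.reachable ?_
      refine ⟨hg, Or.inl ?_⟩
      change g⁻¹ * (g * s) ∈ S
      rwa [inv_mul_cancel_left]
  have h2 : ∀ k ∈ Subgroup.closure S, ∀ g : G, (cayleyGraph S).Reachable g (g * k) := by
    intro k hk
    induction hk using Subgroup.closure_induction with
    | mem s hs => exact h1 s hs
    | one => intro g; rw [mul_one]
    | mul a b _ _ ha hb =>
      intro g
      rw [← mul_assoc]
      exact (ha g).trans (hb _)
    | inv a _ ha =>
      intro g
      have := ha (g * a⁻¹)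
      rw [inv_mul_cancel_right] at this
      exact this.symm
  have := h2 (g⁻¹ * h) (by rw [hS]; trivial) g
  rwa [mul_inv_cancel_left] at this

lemma cayley_connected {G : Type*} [Group G] (S : Set G) (hS : Subgroup.closure S = ⊤) :
    (cayleyGraph S).Connected :=
  ⟨fun g h => cayley_reachable S hS g h⟩

lemma XG_connected : XG.Connected := cayley_connected _ closure_S

lemma Bd_dist (g h : GG) : Bd (XG.dist g h) (g⁻¹ * h).right := by
  obtain ⟨p, hp⟩ := XG_connected.exists_walk_length_eq_dist g h
  have := Bd_walk p 0 g (by rw [inv_mul_cancel, one_right]; exact Bd_one)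
  rwa [zero_add, hp] at this

lemma fg_key {α : Type*} [DecidableEq α] (x ℓ : α × Bool) (v : FreeGroup α)
    (h1 : v.toWord.getLast? = some ℓ)
    (h2 : (FreeGroup.mk [x] * v).toWord.getLast? ≠ some ℓ) :
    x = (ℓ.1, !ℓ.2) ∧ FreeGroup.mk [x] * v = 1 := by
  have hw : (FreeGroup.mk [x] * v).toWord = FreeGroup.reduce (x :: v.toWord) := by
    conv_lhs => rw [← FreeGroup.mk_toWord (x := v)]
    rw [FreeGroup.mul_mk, FreeGroup.toWord_mk]
    rfl
  rw [FreeGroup.reduce.cons, FreeGroup.reduce_toWord] at hw
  rcases hv : v.toWord with _ | ⟨hd, tl⟩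
  · rw [hv] at h1; simp at h1
  · rw [hv] at hw h1
    simp only at hw
    split_ifs at hw with hc
    · rcases tl with _ | ⟨hd', tl'⟩
      · simp only [List.getLast?_singleton, Option.some.injEq] at h1
        subst h1
        refine ⟨Prod.ext hc.1 hc.2, ?_⟩
        exact FreeGroup.toWord_eq_nil_iff.1 hw
      · exfalso
        rw [hw] at h2
        rw [List.getLast?_cons_cons] at h1
        exact h2 h1
    · exfalso
      rw [hw, List.getLast?_cons_cons] at h2
      exact h2 h1

open Classical in
/-- The halfspace: elements whose free part starts with the letter `q0`. -/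
noncomputable def half : Set GG := {g | (g.left⁻¹).toWord.getLast? = some (q0, false)}

lemma crossing {g g' : GG} (hadj : XG.Adj g g') (hg : g ∈ half) (hg' : g' ∉ half) :
    ∃ e ∈ E, g' = inr e := by
  classical
  have hinr : ∀ (h : GG) (a : A), (h * inr a).left = h.left := by
    intro h a; simp
  have hhalf : ∀ {h : GG}, h ∈ half ↔ (h.left⁻¹).toWord.getLast? = some (q0, false) := by
    intro h
    unfold half
    rw [Set.mem_ofPred_eq]
  have h3 : ∀ s ∈ (S : Set GG), s = z ∨ ∃ a : A, s = inr a := by
    intro s hs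
    rcases mem_S.1 hs with rfl | rfl | rfl | rfl
    · exact Or.inr ⟨_, rfl⟩
    · exact Or.inr ⟨_, rfl⟩
    · exact Or.inr ⟨_, rfl⟩
    · exact Or.inl rfl
  rcases hadj.2 with hs | hs
  · rcases h3 _ hs with h | ⟨a, h⟩
    · exfalso
      have hgz : g' = g * z := by rw [← h, mul_inv_cancel_left]
      have hl : g'.left⁻¹ = FreeGroup.mk [((g.right : Q), false)] * g.left⁻¹ := by
        rw [hgz, mul_left, z, left_inl, φ_of, smul_q0, mul_inv_rev]; rfl
      rw [hhalf] at hg hg'
      rw [hl] at hg'
      have := (fg_key _ _ _ hg hg').1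
      simp at this
    · exfalso
      have hgz : g' = g * inr a := by rw [← h, mul_inv_cancel_left]
      rw [hhalf] at hg hg'
      rw [hgz, hinr] at hg'
      exact hg' hg
  · rcases h3 _ hs with h | ⟨a, h⟩
    · have hgz : g = g' * z := by rw [← h, mul_inv_cancel_left]
      have hgz' : g' = g * z⁻¹ := by rw [hgz, mul_inv_cancel_right]
      have hl : g'.left⁻¹ = FreeGroup.mk [((g.right : Q), true)] * g.left⁻¹ := by
        rw [hgz', mul_left, z, ← map_inv, left_inl, map_inv, φ_of, smul_q0, mul_inv_rev, inv_inv]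
        rfl
      rw [hhalf] at hg hg'
      rw [hl] at hg'
      obtain ⟨k1, k2⟩ := fg_key _ _ _ hg hg'
      have hq : (g.right : Q) = q0 := by
        have := congrArg Prod.fst k1
        simpa using this
      refine ⟨g.right, mk_eq_q0.1 hq, ?_⟩
      have hr : g'.right = g.right := by rw [hgz', z]; simp
      rw [k2] at hl
      have hl' : g'.left = 1 := inv_eq_one.1 hl
      rw [← inl_left_mul_inr_right g', hl', hr, map_one, one_mul]
    · exfalso
      have hgz : g = g' * inr a := by rw [← h, mul_inv_cancel_left]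
      rw [hhalf] at hg hg'
      rw [hgz, hinr] at hg
      exact hg' hg

lemma inr_notMem_half (a : A) : (inr a : GG) ∉ half := by
  classical
  unfold half
  rw [Set.mem_ofPred_eq, left_inr, inv_one]
  simp

lemma z_mul_inr_mem_half (a : A) : (z * inr a : GG) ∈ half := by
  classical
  unfold half
  rw [Set.mem_ofPred_eq]
  have : (z * inr a : GG).left = FreeGroup.of q0 := by simp [z]
  rw [this, FreeGroup.toWord_inv, FreeGroup.toWord_of]
  simp [FreeGroup.invRev]

/-- Any set containing `E` and such that there is a path in `A` moving away from it coarsely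
separates `XG`. -/
theorem coarselySeparates_of {Y : Set GG} (hE : ∀ e ∈ E, (inr e : GG) ∈ Y) (b : ℕ → A)
    (hb : ∀ s, b (s + 1) = b s * t⁻¹) (hfar : ∀ s : ℕ, ∀ y ∈ Y, ¬ Bd s ((b s)⁻¹ * y.right)) :
    CoarselySeparates XG Y := by
  have far : ∀ (s : ℕ) (w : GG), w.right = b s → ∀ y ∈ Y, s < XG.dist w y := by
    intro s w hw y hy
    by_contra hcon
    push Not at hcon
    refine hfar s y hy ?_
    have h1 := Bd_dist w y
    rw [mul_right, inv_right, hw] at h1
    exact h1.mono (by exact_mod_cast hcon)
  let U : Set GG := {v : GG | ∀ y ∈ Y, 1 < XG.dist v y}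
  have hU : ∀ (s : ℕ) (w : GG), w.right = b (s + 1) → w ∈ U := by
    intro s w hw y hy
    have := far (s + 1) w hw y hy
    omega
  have hadj : ∀ (g : GG) (s : ℕ), XG.Adj (g * inr (b (s + 1))) (g * inr (b s)) := by
    intro g s
    rw [hb, map_mul, map_inv]
    refine ⟨?_, Or.inl ?_⟩
    · intro h
      have h1 : (inr (b s) * (inr t)⁻¹ : GG) = inr (b s) := mul_left_cancel h
      have h2 : ((inr t)⁻¹ : GG) = 1 := by
        have := mul_left_cancel (a := (inr (b s) : GG)) (b := (inr t)⁻¹) (c := 1)
          (by rw [h1, mul_one])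
        exact this
      have h3 : (inr t : GG).right = 1 := by rw [inv_eq_one.1 h2, one_right]
      have h4 : t.n = 0 := by
        rw [right_inr] at h3
        rw [h3]; rfl
      exact absurd h4 (by decide)
    · change (g * (inr (b s) * (inr t)⁻¹))⁻¹ * (g * inr (b s)) ∈ (S : Set GG)
      have : (g * (inr (b s) * (inr t)⁻¹))⁻¹ * (g * inr (b s)) = inr t := by group
      rw [this]
      exact mem_S.2 (by simp)
  have hright : ∀ (s : ℕ), ((1 : GG) * inr (b s)).right = b s := by intro s; simp
  have hright' : ∀ (s : ℕ), (z * inr (b s)).right = b s := by intro s; simp [z]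
  -- points along the path are in one component
  have hcomp : ∀ (g : GG) (hg : ∀ s, (g * inr (b s)).right = b s) (s : ℕ),
      (⟨g * inr (b (s + 1)), hU s _ (hg _)⟩ : U) ∈
        ((XG.induce U).connectedComponentMk ⟨g * inr (b 1), hU 0 _ (hg _)⟩).supp := by
    intro g hg s
    rw [SimpleGraph.ConnectedComponent.mem_supp_iff, SimpleGraph.ConnectedComponent.eq]
    induction s with
    | zero => exact SimpleGraph.Reachable.refl _
    | succ s ih =>
      refine SimpleGraph.Reachable.trans (SimpleGraph.Adj.reachable ?_) ih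
      exact hadj g (s + 1)
  refine ⟨1, one_pos, (XG.induce U).connectedComponentMk ⟨1 * inr (b 1), hU 0 _ (hright _)⟩,
    (XG.induce U).connectedComponentMk ⟨z * inr (b 1), hU 0 _ (hright' _)⟩, ?_, fun R => ⟨?_, ?_⟩⟩
  · intro hcon
    rw [SimpleGraph.ConnectedComponent.eq] at hcon
    obtain ⟨p⟩ := hcon.symm
    obtain ⟨d, -, hd1, hd2⟩ := p.exists_boundary_dart {x : U | (x : GG) ∈ half}
      (z_mul_inr_mem_half (b 1)) (by
        change ((1 : GG) * inr (b 1)) ∉ half
        rw [one_mul]; exact inr_notMem_half (b 1))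
    have hadj : XG.Adj (d.fst : GG) (d.snd : GG) := d.adj
    obtain ⟨e, he, hde⟩ := crossing hadj hd1 hd2
    have h5 := d.snd.2 (inr e) (hE e he)
    rw [hde, SimpleGraph.dist_self] at h5
    exact absurd h5 (by norm_num)
  · refine ⟨_, hcomp 1 hright R, fun y hy => ?_⟩
    have := far (R + 1) _ (hright _) y hy
    exact Nat.lt_of_succ_lt this
  · refine ⟨_, hcomp z hright' R, fun y hy => ?_⟩
    have := far (R + 1) _ (hright' _) y hy
    exact Nat.lt_of_succ_lt this

end Pool.Agent.Helper55.QRay
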