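import Pool.Agent.Helper55_QRay.Path
import Pool.Agent.Helper55_QRay.Sep

/-!
# The quasiline and the quasi-ray through `E`
-/

set_option autoImplicit false

namespace Pool.Agent.Helper55.QRay

open LaurentPolynomial A SemidirectProduct

/-- one step of the walk -/
def stepc (c : ℕ × ℕ × ℕ) : ℕ × ℕ × ℕ :=
  if c.2.2 < 4 ^ (v c.1) then (c.1, c.2.1, c.2.2 + 1)
  else if c.2.1 < 3 then (c.1, c.2.1 + 1, 0) else (c.1 + 1, 0, 0)

/-- configuration after `k` steps -/
def cfg : ℕ → ℕ × ℕ × ℕ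
  | 0 => (1, 0, 0)
  | k + 1 => stepc (cfg k)

/-- valid configurations -/
def Valid (c : ℕ × ℕ × ℕ) : Prop := 1 ≤ c.1 ∧ c.2.1 ≤ 3 ∧ c.2.2 ≤ 4 ^ (v c.1)

lemma KK_cast (n : ℕ) : KK n = ((4 ^ (v n) : ℕ) : ℤ) := by unfold KK; push_cast; rfl

lemma stepc_valid {c : ℕ × ℕ × ℕ} (hc : Valid c) : Valid (stepc c) := by
  obtain ⟨h1, h2, h3⟩ := hc
  unfold stepc
  split_ifs with k1 k2
  · exact ⟨h1, h2, k1⟩
  · exact ⟨h1, k2, Nat.zero_le _⟩
  · exact ⟨by simp, by simp, Nat.zero_le _⟩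

lemma cfg_valid (k : ℕ) : Valid (cfg k) := by
  induction k with
  | zero => exact ⟨le_rfl, by simp [cfg], by simp [cfg]⟩
  | succ k ih => exact stepc_valid ih

/-- The point of a configuration. -/
noncomputable def P (c : ℕ × ℕ × ℕ) : A := pt c.1 c.2.1 c.2.2

/-- The time of a configuration. -/
def tc (c : ℕ × ℕ × ℕ) : ℤ := time c.1 c.2.1 c.2.2

lemma tc_step {c : ℕ × ℕ × ℕ} (hc : Valid c) : tc (stepc c) = tc c + 1 := by
  obtain ⟨n, r, x⟩ := c
  obtain ⟨h1, h2, h3⟩ := hc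
  dsimp only at h1 h2 h3
  unfold stepc tc
  dsimp only
  split_ifs with k1 k2
  · unfold time; push_cast; ring
  · have hx : x = 4 ^ v n := by omega
    subst hx
    unfold time
    dsimp only
    rw [← KK_cast]
    push_cast; ring
  · have hx : x = 4 ^ v n := by omega
    have hr : r = 3 := by omega
    subst hx; subst hr
    unfold time
    dsimp only
    rw [← KK_cast, Tm_succ h1]
    unfold KK
    push_cast; ring

lemma tc_cfg (k : ℕ) : tc (cfg k) = k + 1 := by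
  induction k with
  | zero => simp [cfg, tc, time, Tm_one]
  | succ k ih =>
    change tc (stepc (cfg k)) = _
    rw [tc_step (cfg_valid k), ih]; push_cast; ring

lemma P_step {c : ℕ × ℕ × ℕ} (hc : Valid c) :
    P (stepc c) = P c * X ∨ P (stepc c) = P c * Y ∨ P (stepc c) = P c * t ∨
      P (stepc c) = P c * t⁻¹ := by
  obtain ⟨n, r, x⟩ := c
  obtain ⟨h1, h2, h3⟩ := hc
  dsimp only at h1 h2 h3
  unfold stepc P
  dsimp only
  rw [A.mul_X, A.mul_Y, A.mul_t, A.mul_t_inv]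
  have hR : ∀ f : R, f + f = 0 := R_add_self
  split_ifs with k1 k2
  · interval_cases r
    · right; right; left; simp [pt]
    · right; right; right
      simp only [pt, A.mk.injEq, true_and]
      push_cast; ring
    · right; right; left; simp [pt]
    · right; right; right
      simp only [pt, A.mk.injEq, true_and]
      push_cast; ring
  · have hx : x = 4 ^ v n := by omega
    subst hx
    interval_cases r
    · right; left
      simp only [pt, zero_add, one_mul, sub_zero, Nat.cast_zero]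
      rw [Cn_succ h1, ← KK_cast]; rfl
    · left
      simp only [pt, Nat.reduceAdd, Nat.cast_zero]
      rw [← KK_cast]
      simp [hR]
    · right; left
      simp only [pt, Nat.reduceAdd, Nat.cast_zero, sub_zero, zero_mul, add_zero]
      rw [← KK_cast, hR]
  · have hx : x = 4 ^ v n := by omega
    have hr : r = 3 := by omega
    subst hx; subst hr
    left
    simp only [pt]
    rw [← KK_cast]
    simp

/-- The bi-infinite path. -/
noncomputable def ρ (k : ℤ) : A := if k ≤ 0 then tp k else P (cfg (k - 1).toNat)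

lemma ρ_nonpos {k : ℤ} (hk : k ≤ 0) : ρ k = tp k := if_pos hk

lemma ρ_pos (k : ℕ) : ρ ((k : ℤ) + 1) = P (cfg k) := by
  unfold ρ
  rw [if_neg (by omega)]
  congr 2
  omega

lemma dist_mul_gen (g : GG) {s : GG} (hs : s ∈ (S : Set GG) ∨ s⁻¹ ∈ (S : Set GG)) :
    XG.dist g (g * s) ≤ 1 := by
  by_cases hne : g = g * s
  · rw [← hne, SimpleGraph.dist_self]; exact Nat.zero_le _
  · have hadj : XG.Adj g (g * s) := by
      refine ⟨hne, ?_⟩
      rcases hs with h | h
      · left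
        change g⁻¹ * (g * s) ∈ (S : Set GG)
        rwa [inv_mul_cancel_left]
      · right
        change (g * s)⁻¹ * g ∈ (S : Set GG)
        rwa [mul_inv_rev, inv_mul_cancel_right]
    have := SimpleGraph.dist_le hadj.toWalk
    simpa using this

lemma ρ_step (k : ℤ) : XG.dist (inr (ρ k)) (inr (ρ (k + 1))) ≤ 1 := by
  have gX : (inr X : GG) ∈ (S : Set GG) := mem_S.2 (by simp)
  have gY : (inr Y : GG) ∈ (S : Set GG) := mem_S.2 (by simp)
  have gt : (inr t : GG) ∈ (S : Set GG) := mem_S.2 (by simp)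
  have gti : ((inr t⁻¹ : GG))⁻¹ ∈ (S : Set GG) := by rw [map_inv, inv_inv]; exact gt
  rcases lt_trichotomy k 0 with hk | hk | hk
  · rw [ρ_nonpos hk.le, ρ_nonpos (by omega : k + 1 ≤ 0)]
    have : tp (k + 1) = tp k * t := by rw [A.mul_t]; rfl
    rw [this, map_mul]
    exact dist_mul_gen _ (Or.inl gt)
  · subst hk
    rw [ρ_nonpos le_rfl]
    have h1 : ρ (0 + 1) = P (cfg 0) := ρ_pos 0
    have h2 : P (cfg 0) = tp 0 * X := by
      rw [A.mul_X]
      simp [P, cfg, pt, tp, Cn_one]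
    rw [h1, h2, map_mul]
    exact dist_mul_gen _ (Or.inl gX)
  · obtain ⟨m, rfl⟩ : ∃ m : ℕ, k = (m : ℤ) + 1 := ⟨(k - 1).toNat, by omega⟩
    have h2 : ρ ((m : ℤ) + 1 + 1) = P (cfg (m + 1)) := by
      have := ρ_pos (m + 1)
      push_cast at this
      exact this
    rw [ρ_pos, h2]
    rcases P_step (cfg_valid m) with h | h | h | h
    · change XG.dist _ (inr (P (stepc (cfg m)))) ≤ 1
      rw [h, map_mul]; exact dist_mul_gen _ (Or.inl gX)
    · change XG.dist _ (inr (P (stepc (cfg m)))) ≤ 1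
      rw [h, map_mul]; exact dist_mul_gen _ (Or.inl gY)
    · change XG.dist _ (inr (P (stepc (cfg m)))) ≤ 1
      rw [h, map_mul]; exact dist_mul_gen _ (Or.inl gt)
    · change XG.dist _ (inr (P (stepc (cfg m)))) ≤ 1
      rw [h, map_mul]; exact dist_mul_gen _ (Or.inr gti)

lemma ρ_upper_aux (a : ℤ) (m : ℕ) : XG.dist (inr (ρ a)) (inr (ρ (a + m))) ≤ m := by
  induction m with
  | zero => simp
  | succ m ih =>
    have h1 := XG_connected.dist_triangle (u := inr (ρ a)) (v := inr (ρ (a + m)))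
      (w := inr (ρ (a + (m + 1 : ℕ))))
    have h2 := ρ_step (a + m)
    have h3 : a + ((m + 1 : ℕ) : ℤ) = a + m + 1 := by push_cast; ring
    rw [h3] at h1 ⊢
    omega

lemma ρ_upper (a b : ℤ) : (XG.dist (inr (ρ a)) (inr (ρ b)) : ℤ) ≤ |a - b| := by
  rcases le_total a b with h | h
  · obtain ⟨m, hm⟩ : ∃ m : ℕ, b = a + m := ⟨(b - a).toNat, by omega⟩
    subst hm
    have := ρ_upper_aux a m
    have h2 : |a - (a + (m : ℤ))| = m := by
      rw [show a - (a + (m : ℤ)) = -m by ring, abs_neg, Nat.abs_cast]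
    rw [h2]; exact_mod_cast this
  · obtain ⟨m, hm⟩ : ∃ m : ℕ, a = b + m := ⟨(a - b).toNat, by omega⟩
    subst hm
    have := ρ_upper_aux b m
    have h2 : |(b + (m : ℤ)) - b| = m := by
      rw [show (b + (m : ℤ)) - b = m by ring, Nat.abs_cast]
    rw [h2, SimpleGraph.dist_comm]; exact_mod_cast this

lemma lower_of_le {c c' : ℕ × ℕ × ℕ} {D : ℤ} (hc : Valid c) (hc' : Valid c')
    (ht : tc c ≤ tc c') (h : Bd D ((P c)⁻¹ * P c')) : tc c' - tc c ≤ 40 * D + 40 := by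
  obtain ⟨n, r, x⟩ := c
  obtain ⟨n', r', x'⟩ := c'
  obtain ⟨h1, h2, h3⟩ := hc
  obtain ⟨h1', h2', h3'⟩ := hc'
  dsimp only at h1 h2 h3 h1' h2' h3'
  have e1 : ((x : ℕ) : ℤ) ≤ KK n := by rw [KK_cast]; exact_mod_cast h3
  have e2 : ((x' : ℕ) : ℤ) ≤ KK n' := by rw [KK_cast]; exact_mod_cast h3'
  unfold tc at *
  unfold P at h
  dsimp only at *
  rcases lt_trichotomy n n' with hlt | heq | hgt
  · exact lower_lt h1 h2 h2' (by positivity) e1 (by positivity) e2 hlt h
  · subst heq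
    exact lower_same h1 h2 h2' (by positivity) e1 (by positivity) e2 ht h
  · exfalso
    have k1 := time_le h1' h2' e2
    have k2 := lt_time (n := n) (r := r) (x := (x : ℤ)) (by positivity)
    have k3 := Tm_mono (a := n' + 1) (b := n) (by omega) (by omega)
    linarith

lemma lower_start {c' : ℕ × ℕ × ℕ} {D a : ℤ} (_ha : a ≤ 0) (hc' : Valid c')
    (h : Bd D ((tp a)⁻¹ * P c')) : tc c' - a ≤ 40 * D + 40 := by
  obtain ⟨n', r', x'⟩ := c'
  obtain ⟨h1', h2', h3'⟩ := hc'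
  dsimp only at h1' h2' h3'
  have e2 : ((x' : ℕ) : ℤ) ≤ KK n' := by rw [KK_cast]; exact_mod_cast h3'
  have e0 : (0 : ℤ) ≤ (x' : ℤ) := by positivity
  unfold tc
  unfold P at h
  dsimp only at *
  have hD : 0 ≤ D := (abs_nonneg _).trans (rel_n h)
  have hrn := abs_le.1 (rel_n h)
  have hpa : (tp a).n = a := rfl
  rw [hpa] at hrn
  obtain ⟨hs0, hs1⟩ := pt_cursor (n := n') h2' e0 e2
  have ht2 := time_le h1' h2' e2
  have hcen : ∀ J : ℕ, (Cn (cidx n' r') - Cn 1).coeff (4 ^ J) ≠ 0 → (4 : ℤ) ^ J ≤ D := by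
    intro J hJ
    refine rel_c h J ?_
    have hx : (tp a).x = 0 := rfl
    have hc : (tp a).c = 0 := rfl
    rw [hx, zero_mul, sub_zero, hc, sub_zero, pt_cidx h2']
    rwa [Cn_one, sub_zero] at hJ
  by_cases hr0 : r' = 0
  · subst hr0
    have htime : time n' 0 x' = Tm n' + 1 + x' := by unfold time; push_cast; ring
    have hq : (pt n' 0 (x' : ℤ)).n = x' := rfl
    rw [hq] at hrn
    rw [htime]
    rcases Nat.lt_or_ge 1 n' with hlt | hge
    · obtain ⟨M, k1, k2, k3⟩ := exists_max le_rfl hlt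
      have hle := hcen (v M) (by
        rw [show cidx n' 0 = n' from rfl, Cn_coeff_one (M := M) le_rfl k1 k2 rfl
          (fun m h1 h2 h3 => (k3 m h1 h2 h3).ne)]
        decide)
      have htot : Tm n' - Tm 1 ≤ 16 * 4 ^ (v M) := by
        refine Tm_bound le_rfl (by omega) fun m h1 h2 => ?_
        by_cases hm : m = M
        · rw [hm]
        · exact (k3 m h1 h2 hm).le
      rw [Tm_one] at htot
      linarith
    · have : n' = 1 := by omega
      subst this
      rw [Tm_one]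
      linarith
  · have hc : cidx n' r' = n' + 1 := by unfold cidx; rw [if_neg hr0]
    obtain ⟨M, k1, k2, k3⟩ := exists_max le_rfl (show 1 < n' + 1 by omega)
    have hle := hcen (v M) (by
      rw [hc, Cn_coeff_one (M := M) le_rfl k1 k2 rfl
        (fun m h1 h2 h3 => (k3 m h1 h2 h3).ne)]
      decide)
    have htot : Tm (n' + 1) - Tm 1 ≤ 16 * 4 ^ (v M) := by
      refine Tm_bound le_rfl (by omega) fun m h1 h2 => ?_
      by_cases hm : m = M
      · rw [hm]
      · exact (k3 m h1 h2 hm).le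
    rw [Tm_one] at htot
    linarith

lemma ρ_lower_le {a b : ℤ} (hab : a ≤ b) :
    b - a ≤ 40 * (XG.dist (inr (ρ a)) (inr (ρ b)) : ℤ) + 40 := by
  have hB := Bd_dist (inr (ρ a)) (inr (ρ b))
  have hR : (((inr (ρ a) : GG))⁻¹ * inr (ρ b)).right = (ρ a)⁻¹ * ρ b := by simp
  rw [hR] at hB
  rcases lt_or_ge 0 a with ha | ha
  · obtain ⟨m, rfl⟩ : ∃ m : ℕ, a = (m : ℤ) + 1 := ⟨(a - 1).toNat, by omega⟩
    obtain ⟨k, rfl⟩ : ∃ k : ℕ, b = (k : ℤ) + 1 := ⟨(b - 1).toNat, by omega⟩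
    rw [ρ_pos, ρ_pos] at hB ⊢
    have h1 := tc_cfg m
    have h2 := tc_cfg k
    have := lower_of_le (cfg_valid m) (cfg_valid k) (by omega) hB
    rw [h1, h2] at this
    exact this
  · rcases lt_or_ge 0 b with hb | hb
    · obtain ⟨k, rfl⟩ : ∃ k : ℕ, b = (k : ℤ) + 1 := ⟨(b - 1).toNat, by omega⟩
      rw [ρ_pos, ρ_nonpos ha] at hB ⊢
      have := lower_start ha (cfg_valid k) hB
      rw [tc_cfg k] at this
      exact this
    · rw [ρ_nonpos ha, ρ_nonpos hb] at hB ⊢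
      have h := rel_n hB
      have e : (tp b).n - (tp a).n = b - a := rfl
      rw [e] at h
      have := abs_le.1 h
      have hD : (0 : ℤ) ≤ (XG.dist (inr (tp a)) (inr (tp b)) : ℤ) := by positivity
      linarith

lemma ρ_lower (a b : ℤ) :
    |a - b| ≤ 40 * (XG.dist (inr (ρ a)) (inr (ρ b)) : ℤ) + 40 := by
  rcases le_total a b with h | h
  · rw [abs_sub_comm, abs_of_nonneg (by omega)]
    exact ρ_lower_le h
  · rw [abs_of_nonneg (by omega), SimpleGraph.dist_comm]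
    exact ρ_lower_le h

/-- The path as a function of a real variable. -/
noncomputable def fρ (s : ℝ) : GG := inr (ρ ⌊s⌋)

lemma fρ_qi (D : Set ℝ) : IsQIEmbeddingOn XG D fρ := by
  refine ⟨40, 3, by norm_num, by norm_num, ?_⟩
  intro s _ t _
  have h1 : (XG.dist (fρ s) (fρ t) : ℝ) ≤ |(⌊s⌋ : ℝ) - ⌊t⌋| := by
    have := ρ_upper ⌊s⌋ ⌊t⌋
    have h := (Int.cast_le (R := ℝ)).2 this
    push_cast at h
    exact h
  have h2 : |(⌊s⌋ : ℝ) - ⌊t⌋| ≤ 40 * (XG.dist (fρ s) (fρ t) : ℝ) + 40 := by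
    have := ρ_lower ⌊s⌋ ⌊t⌋
    have h := (Int.cast_le (R := ℝ)).2 this
    push_cast at h
    exact h
  have f1 := Int.floor_le s
  have f2 := Int.lt_floor_add_one s
  have f3 := Int.floor_le t
  have f4 := Int.lt_floor_add_one t
  have h3 : |(⌊s⌋ : ℝ) - ⌊t⌋| ≤ |s - t| + 1 := by
    rw [abs_le]
    constructor
    · have := neg_abs_le (s - t); linarith
    · have := le_abs_self (s - t); linarith
  have h4 : |s - t| ≤ |(⌊s⌋ : ℝ) - ⌊t⌋| + 1 := by
    rw [abs_le]
    constructor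
    · have := neg_abs_le ((⌊s⌋ : ℝ) - ⌊t⌋); linarith
    · have := le_abs_self ((⌊s⌋ : ℝ) - ⌊t⌋); linarith
  have h5 := abs_nonneg (s - t)
  constructor
  · rw [sub_le_iff_le_add, div_le_iff₀ (by norm_num)]
    linarith
  · linarith

/-! ### all configurations are reached -/

lemma cfg_move {k n r : ℕ} (hk : cfg k = (n, r, 0)) :
    ∀ j : ℕ, j ≤ 4 ^ v n → cfg (k + j) = (n, r, j) := by
  intro j
  induction j with
  | zero => intro _; exact hk
  | succ j ih =>
    intro hj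
    change stepc (cfg (k + j)) = _
    rw [ih (by omega)]
    unfold stepc
    dsimp only
    rw [if_pos (by omega)]

lemma cfg_phase {k n r : ℕ} (hk : cfg k = (n, r, 0)) (hr : r < 3) :
    ∃ k', cfg k' = (n, r + 1, 0) := by
  refine ⟨k + 4 ^ v n + 1, ?_⟩
  change stepc (cfg (k + 4 ^ v n)) = _
  rw [cfg_move hk _ le_rfl]
  unfold stepc
  dsimp only
  rw [if_neg (lt_irrefl _), if_pos hr]

lemma cfg_next {k n : ℕ} (hk : cfg k = (n, 3, 0)) : ∃ k', cfg k' = (n + 1, 0, 0) := by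
  refine ⟨k + 4 ^ v n + 1, ?_⟩
  change stepc (cfg (k + 4 ^ v n)) = _
  rw [cfg_move hk _ le_rfl]
  unfold stepc
  dsimp only
  rw [if_neg (lt_irrefl _), if_neg (lt_irrefl _)]

lemma cfg_three {n : ℕ} (h : ∃ k, cfg k = (n, 0, 0)) : ∃ k, cfg k = (n, 3, 0) := by
  obtain ⟨k, hk⟩ := h
  obtain ⟨k1, hk1⟩ := cfg_phase hk (by norm_num)
  obtain ⟨k2, hk2⟩ := cfg_phase hk1 (by norm_num)
  exact cfg_phase hk2 (by norm_num)

lemma cfg_start {n : ℕ} (hn : 1 ≤ n) : ∃ k, cfg k = (n, 0, 0) := by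
  induction n, hn using Nat.le_induction with
  | base => exact ⟨0, rfl⟩
  | succ n hn ih =>
    obtain ⟨k, hk⟩ := cfg_three ih
    exact cfg_next hk

lemma reach_Cn {n : ℕ} (hn : 1 ≤ n) : ∃ k : ℤ, 0 ≤ k ∧ ρ k = ⟨0, 0, Cn n, 0⟩ := by
  rcases Nat.lt_or_ge 1 n with h | h
  · obtain ⟨m, rfl⟩ : ∃ m, n = m + 1 := ⟨n - 1, by omega⟩
    obtain ⟨k, hk⟩ := cfg_three (cfg_start (n := m) (by omega))
    refine ⟨((k + 4 ^ v m : ℕ) : ℤ) + 1, by positivity, ?_⟩
    rw [ρ_pos, cfg_move hk _ le_rfl]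
    unfold P
    simp only [pt]
    rw [← KK_cast]
    simp
  · have : n = 1 := by omega
    subst this
    refine ⟨0, le_rfl, ?_⟩
    rw [ρ_nonpos le_rfl, Cn_one]; rfl

lemma reach_E {e : A} (he : e ∈ E) : ∃ k : ℤ, 0 ≤ k ∧ ρ k = e := by
  obtain ⟨h1, h2, h3, h4⟩ := he
  obtain ⟨n, hn, -, hn'⟩ := gray_surj (e.c.coeff.support.sup Int.natAbs + 1) e.c (by
    intro d hd
    obtain ⟨i, rfl⟩ := h4 d hd
    refine ⟨i, ?_, rfl⟩
    have k1 : Int.natAbs ((4 : ℤ) ^ i) ≤ e.c.coeff.support.sup Int.natAbs :=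
      Finset.le_sup (f := Int.natAbs) (Finsupp.mem_support_iff.2 hd)
    have k2 : i < 4 ^ i := Nat.lt_pow_self (by norm_num)
    have k3 : Int.natAbs ((4 : ℤ) ^ i) = 4 ^ i := by
      rw [Int.natAbs_pow]; rfl
    omega)
  obtain ⟨k, hk0, hk⟩ := reach_Cn hn
  refine ⟨k, hk0, ?_⟩
  rw [hk, hn']
  ext1
  · exact h1.symm
  · exact h2.symm
  · rfl
  · exact h3.symm

/-- a path moving away from the quasiline -/
noncomputable def bpt (s : ℕ) : A := ⟨0, T (-1), 0, -((s : ℤ) + 2)⟩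

lemma bpt_succ (s : ℕ) : bpt (s + 1) = bpt s * t⁻¹ := by
  rw [A.mul_t_inv]
  unfold bpt
  simp only [A.mk.injEq, true_and]
  push_cast; ring

lemma far_point (s : ℕ) (k : ℤ) : ¬ Bd s ((bpt s)⁻¹ * ρ k) := by
  intro h
  have hR : (0 : ℤ) ≤ s := by positivity
  rcases le_or_gt k 0 with hk | hk
  · rw [ρ_nonpos hk] at h
    have := rel_y h (-1) (by
      simp only [tp, bpt, zero_sub]
      rw [AddMonoidAlgebra.coeff_neg, Finsupp.neg_apply, T_coeff_self]; decide)
    simp only [tp, bpt] at this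
    have a1 := le_abs_self ((-1 : ℤ) - -((s : ℤ) + 2))
    have a2 := abs_nonneg ((-1 : ℤ) - k)
    linarith
  · obtain ⟨m, rfl⟩ : ∃ m : ℕ, k = (m : ℤ) + 1 := ⟨(k - 1).toNat, by omega⟩
    rw [ρ_pos] at h
    have h1 := rel_n h
    obtain ⟨v1, v2, v3⟩ := cfg_valid m
    have e1 : (((cfg m).2.2 : ℕ) : ℤ) ≤ KK (cfg m).1 := by rw [KK_cast]; exact_mod_cast v3
    obtain ⟨hs0, -⟩ := pt_cursor (n := (cfg m).1) v2 (by positivity) e1
    have a1 := le_abs_self ((P (cfg m)).n - -((s : ℤ) + 2))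
    have : 0 ≤ (P (cfg m)).n := hs0
    simp only [bpt] at h1
    linarith

/-- The quasiline through `E` coarsely separates. -/
theorem line_separates : ∃ Y, IsQuasiLine XG Y ∧ CoarselySeparates XG Y := by
  refine ⟨Set.range fρ, ⟨fρ, fρ_qi _, rfl⟩, coarselySeparates_of ?_ bpt bpt_succ ?_⟩
  · intro e he
    obtain ⟨k, -, hk⟩ := reach_E he
    exact ⟨(k : ℝ), by simp [fρ, hk]⟩
  · rintro s y ⟨r, rfl⟩
    exact far_point s _

/-- The quasi-ray through `E` coarsely separates. -/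
theorem ray_separates : ∃ Y, IsQuasiRay XG Y ∧ CoarselySeparates XG Y := by
  refine ⟨fρ '' Set.Ici 0, ⟨fρ, fρ_qi _, rfl⟩, coarselySeparates_of ?_ bpt bpt_succ ?_⟩
  · intro e he
    obtain ⟨k, hk0, hk⟩ := reach_E he
    refine ⟨(k : ℝ), ?_, by simp [fρ, hk]⟩
    simp only [Set.mem_Ici]
    exact_mod_cast hk0
  · rintro s y ⟨r, -, rfl⟩
    exact far_point s _

end Pool.Agent.Helper55.QRay
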