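import Pool.Agent.Helper55_QRay.Trees

/-!
# Infinite surface groups have no elements of order two
-/

set_option autoImplicit false

namespace Pool.Agent.Helper55.QRay

open SemidirectProduct

section
variable {C : Type} (w : FreeGroup C) (ε : ℤ)

/-- the free group on `u` and `c_n` -/
abbrev FF (C : Type) := FreeGroup (Option (C × ℤ))

/-- the word `w` at level `n` -/
def wn (w : FreeGroup C) (n : ℤ) : FF C := FreeGroup.lift (fun c => FreeGroup.of (some (c, n))) w

/-- images of the generators under the shift -/
def θgen : Option (C × ℤ) → FF C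
  | none => wn w 0 * (FreeGroup.of none) ^ ε
  | some (c, n) => FreeGroup.of (some (c, n + 1))

/-- images of the generators under the inverse shift -/
def θgen' : Option (C × ℤ) → FF C
  | none => ((wn w (-1))⁻¹ * FreeGroup.of none) ^ ε
  | some (c, n) => FreeGroup.of (some (c, n - 1))

lemma θ_wn (n : ℤ) : FreeGroup.lift (θgen w ε) (wn w n) = wn w (n + 1) := by
  have : (FreeGroup.lift (θgen w ε)).comp (FreeGroup.lift (fun c : C => FreeGroup.of (some (c, n))))
      = FreeGroup.lift (fun c : C => FreeGroup.of (some (c, n + 1))) := by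
    ext c
    simp [θgen]
  exact DFunLike.congr_fun this w

lemma θ_wn' (n : ℤ) : FreeGroup.lift (θgen' w ε) (wn w n) = wn w (n - 1) := by
  have : (FreeGroup.lift (θgen' w ε)).comp (FreeGroup.lift (fun c : C => FreeGroup.of (some (c, n))))
      = FreeGroup.lift (fun c : C => FreeGroup.of (some (c, n - 1))) := by
    ext c
    simp [θgen']
  exact DFunLike.congr_fun this w

/-- The shift automorphism. -/
def θ (hε : ε * ε = 1) : MulAut (FF C) :=
  MonoidHom.toMulEquiv (FreeGroup.lift (θgen w ε)) (FreeGroup.lift (θgen' w ε))
    (by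
      apply FreeGroup.ext_hom
      rintro (_ | ⟨c, n⟩)
      · simp only [MonoidHom.comp_apply, FreeGroup.lift_apply_of, MonoidHom.id_apply]
        rw [θgen, map_mul, θ_wn', map_zpow, FreeGroup.lift_apply_of, θgen', ← zpow_mul, hε,
          zpow_one, zero_sub, mul_inv_cancel_left]
      · simp [θgen, θgen'])
    (by
      apply FreeGroup.ext_hom
      rintro (_ | ⟨c, n⟩)
      · simp only [MonoidHom.comp_apply, FreeGroup.lift_apply_of, MonoidHom.id_apply]
        rw [θgen', map_zpow, map_mul, map_inv, θ_wn, FreeGroup.lift_apply_of, θgen, neg_add_cancel,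
          inv_mul_cancel_left, ← zpow_mul, hε, zpow_one]
      · simp [θgen, θgen'])

lemma θ_none (hε : ε * ε = 1) :
    θ w ε hε (FreeGroup.of none) = wn w 0 * (FreeGroup.of none) ^ ε := by
  change FreeGroup.lift (θgen w ε) (FreeGroup.of none) = _
  rw [FreeGroup.lift_apply_of]; rfl

lemma θ_some (hε : ε * ε = 1) (c : C) (n : ℤ) :
    θ w ε hε (FreeGroup.of (some (c, n))) = FreeGroup.of (some (c, n + 1)) := by
  change FreeGroup.lift (θgen w ε) (FreeGroup.of (some (c, n))) = _
  rw [FreeGroup.lift_apply_of]; rfl

/-- the action of `ℤ` -/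
def θact (hε : ε * ε = 1) : Multiplicative ℤ →* MulAut (FF C) := zpowersHom _ (θ w ε hε)

/-- the model group -/
abbrev SD (hε : ε * ε = 1) := FF C ⋊[θact w ε hε] Multiplicative ℤ

lemma SD_no_involution (hε : ε * ε = 1) (s : SD w ε hε) (hs : s * s = 1) : s = 1 := by
  have h1 : s.right * s.right = 1 := by rw [← mul_right, hs, one_right]
  have h2 : s.right = 1 := by
    have h4 : Multiplicative.toAdd s.right + Multiplicative.toAdd s.right = 0 := by
      rw [← toAdd_mul, h1, toAdd_one]
    have h5 : Multiplicative.toAdd s.right = 0 := by omega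
    rw [← ofAdd_toAdd s.right, h5, ofAdd_zero]
  have h3 : s.left * s.left = 1 := by
    have := congrArg SemidirectProduct.left hs
    rw [mul_left, h2, map_one, MulAut.one_apply, one_left] at this
    exact this
  have h4 : s.left = 1 := by
    have h5 : s.left ^ 2 = 1 ^ 2 := by rw [pow_two, h3, one_pow]
    exact pow_left_injective (by norm_num) h5
  ext1
  · exact h4
  · exact h2

/-- A group generated by `x, u, γ c` with `x u x⁻¹ = w(γ) u^ε` and mapping correctly to the
model group has no element of order two. -/
lemma no_involution {Γ : Type*} [Group Γ] (x u : Γ) (γ : C → Γ)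
    (hgen : ∀ H : Subgroup Γ, x ∈ H → u ∈ H → (∀ c, γ c ∈ H) → ∀ y, y ∈ H)
    (hε : ε * ε = 1) (hrel : x * u * x⁻¹ = FreeGroup.lift γ w * u ^ ε)
    (Ψ : Γ →* SD w ε hε) (hx : Ψ x = inr (Multiplicative.ofAdd 1))
    (hu : Ψ u = inl (FreeGroup.of none)) (hγ : ∀ c, Ψ (γ c) = inl (FreeGroup.of (some (c, 0))))
    (y : Γ) (hy : y * y = 1) : y = 1 := by
  let fgen : Option (C × ℤ) → Γ := fun o => match o with
    | none => u
    | some (c, n) => x ^ n * γ c * x ^ (-n)
  let fn : FF C →* Γ := FreeGroup.lift fgen
  have hwn : fn (wn w 0) = FreeGroup.lift γ w := by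
    have : fn.comp (FreeGroup.lift (fun c : C => FreeGroup.of (some (c, (0 : ℤ)))))
        = FreeGroup.lift γ := by
      ext c
      simp [fn, fgen]
    exact DFunLike.congr_fun this w
  have base : ∀ f : FF C, fn (θ w ε hε f) = x * fn f * x⁻¹ := by
    intro f
    have : fn.comp (θ w ε hε).toMonoidHom = (MulAut.conj x).toMonoidHom.comp fn := by
      apply FreeGroup.ext_hom
      rintro (_ | ⟨c, n⟩)
      · change fn (θ w ε hε (FreeGroup.of none)) = x * fn (FreeGroup.of none) * x⁻¹
        rw [θ_none, map_mul, map_zpow, hwn]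
        have : fn (FreeGroup.of none) = u := by simp [fn, fgen]
        rw [this, hrel]
      · change fn (θ w ε hε (FreeGroup.of (some (c, n)))) =
          x * fn (FreeGroup.of (some (c, n))) * x⁻¹
        rw [θ_some]
        have h1 : ∀ m : ℤ, fn (FreeGroup.of (some (c, m))) = x ^ m * γ c * x ^ (-m) := by
          intro m; simp [fn, fgen]
        rw [h1, h1]
        have e1 : x ^ (n + 1) = x * x ^ n := by rw [add_comm, zpow_add, zpow_one]
        have e2 : x ^ (-(n + 1)) = x ^ (-n) * x⁻¹ := by
          rw [neg_add, zpow_add, zpow_neg_one]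
        rw [e1, e2]
        group
    exact DFunLike.congr_fun this f
  have base' : ∀ f : FF C, fn ((θ w ε hε)⁻¹ f) = x⁻¹ * fn f * x := by
    intro f
    have h := base ((θ w ε hε)⁻¹ f)
    rw [MulAut.apply_inv_self] at h
    rw [h]; group
  have all : ∀ (n : ℤ) (f : FF C), fn ((θ w ε hε ^ n) f) = x ^ n * fn f * x ^ (-n) := by
    intro n
    induction n using Int.induction_on with
    | zero => intro f; simp
    | succ k ih =>
      intro f
      rw [zpow_add_one, MulAut.mul_apply, ih, base]
      have e1 : x ^ ((k : ℤ) + 1) = x ^ (k : ℤ) * x := by rw [zpow_add_one]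
      have e2 : x ^ (-((k : ℤ) + 1)) = x⁻¹ * x ^ (-(k : ℤ)) := by
        rw [neg_add_rev, zpow_add, zpow_neg_one]
      rw [e1, e2]; group
    | pred k ih =>
      intro f
      rw [zpow_sub_one, MulAut.mul_apply, ih, base']
      have e1 : x ^ (-(k : ℤ) - 1) = x ^ (-(k : ℤ)) * x⁻¹ := by rw [zpow_sub_one]
      have e2 : x ^ (-(-(k : ℤ) - 1)) = x * x ^ (-(-(k : ℤ))) := by
        rw [← zpow_one_add]; congr 1; ring
      rw [e1, e2]; group
  let Φ : SD w ε hε →* Γ := SemidirectProduct.lift fn (zpowersHom Γ x) (by
    intro g
    ext o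
    change fn ((θ w ε hε ^ (Multiplicative.toAdd g)) (FreeGroup.of o)) = _
    rw [all, zpow_neg]
    rfl)
  have hid : ∀ y : Γ, Φ (Ψ y) = y := by
    apply hgen ((Φ.comp Ψ).eqLocus (MonoidHom.id Γ))
    · change Φ (Ψ x) = x
      rw [hx]
      simp only [Φ, SemidirectProduct.lift_inr]
      simp
    · change Φ (Ψ u) = u
      rw [hu]
      simp only [Φ, SemidirectProduct.lift_inl]
      simp [fn, fgen]
    · intro c
      change Φ (Ψ (γ c)) = γ c
      rw [hγ]
      simp only [Φ, SemidirectProduct.lift_inl]
      simp [fn, fgen]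
  have h1 : Ψ y * Ψ y = 1 := by rw [← map_mul, hy, map_one]
  rw [← hid y, SD_no_involution w ε hε _ h1, map_one]

end

/-- evaluation of the orientable relator -/
lemma lift_orientable {Γ : Type*} [Group Γ] {g : ℕ} (f : Fin g × Bool → Γ) :
    FreeGroup.lift f (orientableRelator g) =
      (List.ofFn fun i : Fin g => f (i, false) * f (i, true) * (f (i, false))⁻¹ *
        (f (i, true))⁻¹).prod := by
  unfold orientableRelator
  rw [map_list_prod, List.map_ofFn]
  congr 1
  apply congrArg
  funext i
  simp

lemma lift_nonorientable {Γ : Type*} [Group Γ] {k : ℕ} (f : Fin k → Γ) :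
    FreeGroup.lift f (nonorientableRelator k) = (List.ofFn fun i : Fin k => f i ^ 2).prod := by
  unfold nonorientableRelator
  rw [map_list_prod, List.map_ofFn]
  congr 1
  apply congrArg
  funext i
  simp

lemma lift_orientable_succ {Γ : Type*} [Group Γ] {g : ℕ} (f : Fin (g + 1) × Bool → Γ) :
    FreeGroup.lift f (orientableRelator (g + 1)) =
      f (0, false) * f (0, true) * (f (0, false))⁻¹ * (f (0, true))⁻¹ *
        FreeGroup.lift (fun p : Fin g × Bool => f (p.1.succ, p.2)) (orientableRelator g) := by
  rw [lift_orientable, lift_orientable, List.ofFn_succ, List.prod_cons]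

lemma lift_nonorientable_succ {Γ : Type*} [Group Γ] {k : ℕ} (f : Fin (k + 1) → Γ) :
    FreeGroup.lift f (nonorientableRelator (k + 1)) =
      f 0 ^ 2 * FreeGroup.lift (fun p : Fin k => f p.succ) (nonorientableRelator k) := by
  rw [lift_nonorientable, lift_nonorientable, List.ofFn_succ, List.prod_cons]

/-- Fundamental groups of closed orientable surfaces of positive genus have no involutions. -/
lemma orientable_no_involution (g : ℕ) (y : PresentedGroup {orientableRelator (g + 1)})
    (hy : y * y = 1) : y = 1 := by
  let ι : Fin (g + 1) × Bool → PresentedGroup {orientableRelator (g + 1)} := fun p => PresentedGroup.of p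
  have hι : FreeGroup.lift ι (orientableRelator (g + 1)) = 1 := by
    have h1 : FreeGroup.lift ι = PresentedGroup.mk {orientableRelator (g + 1)} := by
      ext p; simp [ι, PresentedGroup.of]
    rw [h1]
    exact PresentedGroup.one_of_mem rfl
  rw [lift_orientable_succ] at hι
  let w : FreeGroup (Fin g × Bool) := (orientableRelator g)⁻¹
  let γ : Fin g × Bool → PresentedGroup {orientableRelator (g + 1)} := fun p => ι (p.1.succ, p.2)
  have hε : (1 : ℤ) * 1 = 1 := by norm_num
  let f : Fin (g + 1) × Bool → SD w 1 hε := fun p =>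
    Fin.cases (motive := fun _ => SD w 1 hε)
      (if p.2 then inl (FreeGroup.of none) else inr (Multiplicative.ofAdd 1))
      (fun i => inl (FreeGroup.of (some ((i, p.2), 0)))) p.1
  have hrel : FreeGroup.lift f (orientableRelator (g + 1)) = 1 := by
    rw [lift_orientable_succ]
    have h1 : f (0, false) = inr (Multiplicative.ofAdd 1) := by simp [f]
    have h2 : f (0, true) = inl (FreeGroup.of none) := by simp [f]
    have h3 : FreeGroup.lift (fun p : Fin g × Bool => f (p.1.succ, p.2)) (orientableRelator g) =
        inl (wn (orientableRelator g) 0) := by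
      have : FreeGroup.lift (fun p : Fin g × Bool => f (p.1.succ, p.2)) =
          (inl : _ →* SD w 1 hε).comp
            (FreeGroup.lift (fun c : Fin g × Bool => FreeGroup.of (some (c, (0 : ℤ))))) := by
        ext p <;> simp [f]
      rw [this]; rfl
    have h4 : (inr (Multiplicative.ofAdd 1) * inl (FreeGroup.of none) *
        (inr (Multiplicative.ofAdd 1))⁻¹ : SD w 1 hε) =
        inl ((wn (orientableRelator g) 0)⁻¹ * FreeGroup.of none) := by
      rw [← map_inv, ← inl_aut]
      congr 1
      change (θ w 1 hε ^ (1 : ℤ)) (FreeGroup.of none) = _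
      rw [zpow_one, θ_none, zpow_one]
      congr 1
      simp [w, wn]
    rw [h1, h2, h3, h4, ← map_inv, ← map_mul, ← map_mul]
    simp
  let Ψ : PresentedGroup {orientableRelator (g + 1)} →* SD w 1 hε := PresentedGroup.toGroup (f := f) (by
    intro r hr
    rw [Set.mem_singleton_iff.1 hr]; exact hrel)
  have hΨ : ∀ p, Ψ (ι p) = f p := fun p => PresentedGroup.toGroup.of _
  refine no_involution w 1 (ι (0, false)) (ι (0, true)) γ ?_ hε ?_ Ψ ?_ ?_ ?_ y hy
  · intro H h1 h2 h3 y
    refine PresentedGroup.generated_by _ H ?_ y
    rintro ⟨i, b⟩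
    refine Fin.cases ?_ (fun i => ?_) i
    · cases b
      · exact h1
      · exact h2
    · exact h3 (i, b)
  · have h5 : FreeGroup.lift γ w = (FreeGroup.lift γ (orientableRelator g))⁻¹ := by simp [w]
    rw [h5, zpow_one]
    change _ * FreeGroup.lift γ (orientableRelator g) = 1 at hι
    rw [← mul_eq_one_iff_eq_inv.1 hι]
    group
  · rw [hΨ]; simp [f]
  · rw [hΨ]; simp [f]
  · intro c
    change Ψ (ι _) = _
    rw [hΨ]; simp [f]


/-- Fundamental groups of closed non-orientable surfaces of genus at least two have no
involutions. -/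
lemma nonorientable_no_involution (k : ℕ) (y : PresentedGroup {nonorientableRelator (k + 2)})
    (hy : y * y = 1) : y = 1 := by
  let ι : Fin (k + 2) → PresentedGroup {nonorientableRelator (k + 2)} :=
    fun p => PresentedGroup.of p
  have hι : FreeGroup.lift ι (nonorientableRelator (k + 2)) = 1 := by
    have h1 : FreeGroup.lift ι = PresentedGroup.mk {nonorientableRelator (k + 2)} := by
      ext p; simp [ι, PresentedGroup.of]
    rw [h1]
    exact PresentedGroup.one_of_mem rfl
  rw [lift_nonorientable_succ, lift_nonorientable_succ] at hι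
  let w : FreeGroup (Fin k) := (nonorientableRelator k)⁻¹
  let γ : Fin k → PresentedGroup {nonorientableRelator (k + 2)} := fun p => ι p.succ.succ
  have hε : (-1 : ℤ) * (-1) = 1 := by norm_num
  let f : Fin (k + 2) → SD w (-1) hε := fun p =>
    Fin.cases (motive := fun _ => SD w (-1) hε) (inr (Multiplicative.ofAdd 1))
      (fun p' => Fin.cases (motive := fun _ => SD w (-1) hε)
        ((inr (Multiplicative.ofAdd 1))⁻¹ * inl (FreeGroup.of none))
        (fun i => inl (FreeGroup.of (some (i, 0)))) p') p
  have hrel : FreeGroup.lift f (nonorientableRelator (k + 2)) = 1 := by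
    rw [lift_nonorientable_succ, lift_nonorientable_succ]
    have h1 : f 0 = inr (Multiplicative.ofAdd 1) := by simp [f]
    have h2 : f (Fin.succ 0) = (inr (Multiplicative.ofAdd 1))⁻¹ * inl (FreeGroup.of none) := by
      simp only [f, Fin.cases_succ, Fin.cases_zero]
    have h3 : FreeGroup.lift (fun p : Fin k => f p.succ.succ) (nonorientableRelator k) =
        inl (wn (nonorientableRelator k) 0) := by
      have : FreeGroup.lift (fun p : Fin k => f p.succ.succ) =
          (inl : _ →* SD w (-1) hε).comp
            (FreeGroup.lift (fun c : Fin k => FreeGroup.of (some (c, (0 : ℤ))))) := by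
        ext p <;> simp [f]
      rw [this]; rfl
    have h4 : (inr (Multiplicative.ofAdd 1) * inl (FreeGroup.of none) *
        (inr (Multiplicative.ofAdd 1))⁻¹ : SD w (-1) hε) =
        inl ((wn (nonorientableRelator k) 0)⁻¹ * (FreeGroup.of none)⁻¹) := by
      rw [← map_inv, ← inl_aut]
      congr 1
      change (θ w (-1) hε ^ (1 : ℤ)) (FreeGroup.of none) = _
      rw [zpow_one, θ_none, zpow_neg_one]
      congr 1
      simp [w, wn]
    rw [h1, h2, h3]
    have h5 : (inr (Multiplicative.ofAdd 1) ^ 2 *
        (((inr (Multiplicative.ofAdd 1))⁻¹ * inl (FreeGroup.of none)) ^ 2 *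
          inl (wn (nonorientableRelator k) 0)) : SD w (-1) hε) =
        (inr (Multiplicative.ofAdd 1) * inl (FreeGroup.of none) *
        (inr (Multiplicative.ofAdd 1))⁻¹) * inl (FreeGroup.of none) *
          inl (wn (nonorientableRelator k) 0) := by
      simp only [pow_two, mul_assoc, mul_inv_cancel_left]
    rw [h5, h4, ← map_mul, ← map_mul]
    simp
  let Ψ : PresentedGroup {nonorientableRelator (k + 2)} →* SD w (-1) hε :=
    PresentedGroup.toGroup (f := f) (by
      intro r hr
      rw [Set.mem_singleton_iff.1 hr]; exact hrel)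
  have hΨ : ∀ p, Ψ (ι p) = f p := fun p => PresentedGroup.toGroup.of _
  refine no_involution w (-1) (ι 0) (ι 0 * ι (Fin.succ 0)) γ ?_ hε ?_ Ψ ?_ ?_ ?_ y hy
  · intro H h1 h2 h3 y
    have h1' : ι (Fin.succ 0) ∈ H := by
      have := H.mul_mem (H.inv_mem h1) h2
      rwa [inv_mul_cancel_left] at this
    refine PresentedGroup.generated_by _ H ?_ y
    intro i
    refine Fin.cases ?_ (fun i => ?_) i
    · exact h1
    · refine Fin.cases ?_ (fun i => ?_) i
      · exact h1'
      · exact h3 i
  · have h5 : FreeGroup.lift γ w = (FreeGroup.lift γ (nonorientableRelator k))⁻¹ := by simp [w]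
    rw [h5, zpow_neg_one]
    change ι 0 ^ 2 * (ι (Fin.succ 0) ^ 2 * FreeGroup.lift γ (nonorientableRelator k)) = 1 at hι
    have h6 : (FreeGroup.lift γ (nonorientableRelator k))⁻¹ =
        ι 0 ^ 2 * ι (Fin.succ 0) ^ 2 := by
      rw [← mul_assoc] at hι
      exact (mul_eq_one_iff_eq_inv.1 hι).symm
    rw [h6, pow_two, pow_two]
    group
  · rw [hΨ]; simp [f]
  · rw [map_mul, hΨ, hΨ]
    simp only [f, Fin.cases_succ, Fin.cases_zero]
    rw [mul_inv_cancel_left]
  · intro c
    change Ψ (ι _) = _
    rw [hΨ]; simp [f]

/-- A group with an infinite elementary abelian 2-subgroup is not virtually a surface group. -/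
theorem not_surface {G : Type*} [Group G] {E0 : Type*} [Group E0] [Infinite E0]
    (h2 : ∀ e : E0, e * e = 1) (ψ : E0 →* G) (hψ : Function.Injective ψ) :
    ¬ IsVirtuallySurfaceGroup G := by
  rintro ⟨K, hK, hsurf⟩
  obtain ⟨x, -, hxK, hx1, hxx⟩ := exists_involution_mem K hK h2 ψ hψ
  let y : K := ⟨ψ x, hxK⟩
  have hyy : y * y = 1 := Subtype.ext hxx
  have hy1 : y ≠ 1 := fun h => hx1 (congrArg Subtype.val h)
  have hinf : Infinite K := by
    by_contra hfin
    rw [not_infinite_iff_finite] at hfin
    have : Finite G := by
      have h1 : Finite (G ⧸ K) := Subgroup.finite_quotient_of_finiteIndex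
      exact Finite.of_equiv _ (Subgroup.groupEquivQuotientProdSubgroup (s := K)).symm
    have := Infinite.of_injective ψ hψ
    exact not_finite G
  rcases hsurf with ⟨g, ⟨iso⟩⟩ | ⟨k, hk, ⟨iso⟩⟩
  · rcases g with _ | g
    · -- the trivial group
      have : Subsingleton (PresentedGroup {orientableRelator 0}) := by
        refine ⟨fun a b => ?_⟩
        have h : ∀ a : PresentedGroup {orientableRelator 0}, a = 1 := by
          intro a
          exact PresentedGroup.generated_by _ ⊥ (fun p => p.1.elim0) a
        rw [h a, h b]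
      exact hy1 (iso.injective (Subsingleton.elim _ _))
    · have h3 : iso y * iso y = 1 := by rw [← map_mul, hyy, map_one]
      have h4 := orientable_no_involution g _ h3
      rw [← map_one iso] at h4
      exact hy1 (iso.injective h4)
  · obtain ⟨k, rfl⟩ : ∃ m, k = m + 1 := ⟨k - 1, by omega⟩
    rcases k with _ | k
    · -- the group of order two
      let a : PresentedGroup {nonorientableRelator 1} := PresentedGroup.of 0
      have ha : a * a = 1 := by
        have h1 : FreeGroup.lift (fun p : Fin 1 =>
            (PresentedGroup.of p : PresentedGroup {nonorientableRelator 1}))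
            (nonorientableRelator 1) = 1 := by
          have h2 : FreeGroup.lift (fun p : Fin 1 =>
              (PresentedGroup.of p : PresentedGroup {nonorientableRelator 1})) =
              PresentedGroup.mk {nonorientableRelator 1} := by
            ext p; simp [PresentedGroup.of]
          rw [h2]
          exact PresentedGroup.one_of_mem rfl
        rw [lift_nonorientable] at h1
        simpa [pow_two] using h1
      have hfin : (Set.univ : Set (PresentedGroup {nonorientableRelator 1})).Finite := by
        refine (Set.toFinite {1, a}).subset ?_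
        have hinv : a⁻¹ = a := inv_eq_of_mul_eq_one_right ha
        let H : Subgroup (PresentedGroup {nonorientableRelator 1}) :=
          { carrier := {1, a}
            mul_mem' := by
              rintro x y (rfl | rfl) (rfl | rfl) <;> simp [ha]
            one_mem' := by simp
            inv_mem' := by
              rintro x (rfl | rfl) <;> simp [hinv] }
        intro b _
        have : b ∈ H := PresentedGroup.generated_by _ H (fun p => by
          have : p = 0 := Subsingleton.elim _ _
          rw [this]
          right; rfl) b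
        exact this
      have : Finite (PresentedGroup {nonorientableRelator 1}) := Set.finite_univ_iff.1 hfin
      have : Finite K := Finite.of_equiv _ iso.symm.toEquiv
      exact not_finite K
    · have h3 : iso y * iso y = 1 := by rw [← map_mul, hyy, map_one]
      have h4 := nonorientable_no_involution k _ h3
      rw [← map_one iso] at h4
      exact hy1 (iso.injective h4)

end Pool.Agent.Helper55.QRay
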