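import Pool.Agent.Helper55_QRay.Line
import Pool.Agent.Helper55_QRay.Ends
import Pool.Agent.Helper55_QRay.Surface

/-!
# The counterexample to (b) and (c)
-/

set_option autoImplicit false

namespace Pool.Agent.Helper55.QRay

open LaurentPolynomial A SemidirectProduct

universe w

/-- The elements of `E` as central elements of `GG`. -/
noncomputable def ιE : E →* GG := (inr : A →* GG).comp E.subtype

lemma ιE_injective : Function.Injective ιE := fun _ _ h =>
  Subtype.ext (inr_injective h)

lemma ιE_central (e : E) (g : GG) : ιE e * g = g * ιE e := by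
  change (inr (e : A) : GG) * g = g * inr (e : A)
  ext1
  · simp only [mul_left, left_inr, right_inr, map_one, one_mul, mul_one]
    rw [φ_E e.2]
    rfl
  · rw [mul_right, mul_right, right_inr]
    exact E_central e.2 g.right

lemma E_exp (e : E) : e * e = 1 := Subtype.ext (E_sq e.2)

instance E_infinite : Infinite E := by
  refine Infinite.of_injective (fun i : ℕ => (⟨⟨0, 0, T ((4 : ℤ) ^ i), 0⟩, ?_⟩ : E)) ?_
  · refine ⟨rfl, rfl, rfl, ?_⟩
    intro d hd
    refine ⟨i, ?_⟩
    by_contra hne
    exact hd (T_coeff_ne (fun h => hne h.symm))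
  · intro i j hij
    have h1 : (T ((4 : ℤ) ^ i) : R) = T ((4 : ℤ) ^ j) := congrArg (fun e : E => (e : A).c) hij
    have h2 : (T ((4 : ℤ) ^ j) : R).coeff ((4 : ℤ) ^ i) = 1 := by rw [← h1, T_coeff_self]
    by_contra hne
    rw [T_coeff_ne (fun h => hne (pow4_inj.1 h).symm)] at h2
    exact absurd h2 (by decide)

theorem XG_oneEnded : OneEnded XG := by
  refine oneEnded_of_central_torsion S closure_S (Set.range ιE)
    (Set.infinite_range_of_injective ιE_injective) ?_ ?_
  · rintro _ ⟨e, rfl⟩ g
    exact ιE_central e g
  · rintro _ ⟨e, rfl⟩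
    exact ⟨2, by norm_num, by rw [pow_two, ← map_mul, E_exp, map_one]⟩

/-- **Main theorem.**  There is a finitely generated one-ended group whose Cayley graph is coarsely
separated by a quasi-ray and by a quasiline, but which does not split over a virtually infinite
cyclic subgroup and is not virtually a surface group. -/
theorem main : ∃ (G : Type) (_ : Group G) (S : Finset G),
    Subgroup.closure (S : Set G) = ⊤ ∧
    OneEnded (cayleyGraph (S : Set G)) ∧
    (∃ Y : Set G, IsQuasiRay (cayleyGraph (S : Set G)) Y ∧
      CoarselySeparates (cayleyGraph (S : Set G)) Y) ∧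
    (∃ Y : Set G, IsQuasiLine (cayleyGraph (S : Set G)) Y ∧
      CoarselySeparates (cayleyGraph (S : Set G)) Y) ∧
    (¬ ∃ H : Subgroup G, IsVirtuallyZ H ∧ SplitsOver.{0, w} G H) ∧
    ¬ IsVirtuallySurfaceGroup G :=
  ⟨GG, inferInstance, S, closure_S, XG_oneEnded, ray_separates, line_separates,
    not_splits E_exp ιE ιE_injective ιE_central, not_surface E_exp ιE ιE_injective⟩

end Pool.Agent.Helper55.QRay
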