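import Pool.Agent.Helper55_QRay.Ruler

/-!
# The quasi-geodesic path in `A`
-/

set_option autoImplicit false

namespace Pool.Agent.Helper55.QRay

open LaurentPolynomial A

/-- The power of four attached to a segment. -/
def KK (n : ℕ) : ℤ := 4 ^ (v n)

lemma KK_pos (n : ℕ) : 1 ≤ KK n := by
  unfold KK; exact one_le_pow₀ (by norm_num)

/-- The points on the path: segment `n`, phase `r`, offset `x`. -/
noncomputable def pt (n : ℕ) (r : ℕ) (x : ℤ) : A :=
  match r with
  | 0 => ⟨1, 0, Cn n, x⟩
  | 1 => ⟨1, T (KK n), Cn (n + 1), KK n - x⟩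
  | 2 => ⟨0, T (KK n), Cn (n + 1), x⟩
  | _ => ⟨0, 0, Cn (n + 1), KK n - x⟩

/-- The time at which the path is at `pt n r x`. -/
def time (n r : ℕ) (x : ℤ) : ℤ := Tm n + r * (KK n + 1) + 1 + x

lemma time_le {n r : ℕ} {x : ℤ} (hn : 1 ≤ n) (hr : r ≤ 3) (hx : x ≤ KK n) :
    time n r x ≤ Tm (n + 1) := by
  rw [Tm_succ hn]
  unfold time
  have h1 : (r : ℤ) ≤ 3 := by exact_mod_cast hr
  have h2 := KK_pos n
  have h3 : (r : ℤ) * (KK n + 1) ≤ 3 * (KK n + 1) :=
    mul_le_mul_of_nonneg_right h1 (by linarith)
  unfold KK at *
  linarith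

lemma lt_time {n r : ℕ} {x : ℤ} (hx : 0 ≤ x) : Tm n < time n r x := by
  unfold time
  have h2 := KK_pos n
  have : (0 : ℤ) ≤ r * (KK n + 1) := by positivity
  linarith

/-! ### consequences of the length bound for a relative position -/

lemma rel_n {D : ℤ} {p q : A} (h : Bd D (p⁻¹ * q)) : |q.n - p.n| ≤ D := by
  have := h.1
  rwa [inv_mul_n] at this

lemma rel_x {D : ℤ} {p q : A} (h : Bd D (p⁻¹ * q)) (k : ℤ)
    (hk : (q.x - p.x).coeff (-k) ≠ 0) : |k - p.n| + |k - q.n| ≤ D := by
  have h1 := h.2.1 (k - p.n) (by
    rw [inv_mul_x, coeff_T_mul]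
    convert! hk using 2
    ring)
  rw [inv_mul_n] at h1
  rwa [show k - p.n - (q.n - p.n) = k - q.n by ring] at h1

lemma rel_y {D : ℤ} {p q : A} (h : Bd D (p⁻¹ * q)) (k : ℤ)
    (hk : (q.y - p.y).coeff k ≠ 0) : |k - p.n| + |k - q.n| ≤ D := by
  have h1 := h.2.2.1 (k - p.n) (by
    rw [inv_mul_y, coeff_T_mul]
    convert! hk using 2
    ring)
  rw [inv_mul_n] at h1
  rwa [show k - p.n - (q.n - p.n) = k - q.n by ring] at h1

lemma rel_c {D : ℤ} {p q : A} (h : Bd D (p⁻¹ * q)) (J : ℕ)
    (hk : (q.c - p.c - p.x * (q.y - p.y)).coeff (4 ^ J) ≠ 0) : (4 : ℤ) ^ J ≤ D := by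
  have h1 := h.2.2.2 (4 ^ J) (by rwa [inv_mul_c])
  exact (le_abs_self _).trans h1


lemma one_coeff : (1 : R).coeff 0 = 1 := by
  rw [← T_zero, T_apply]; simp

lemma T_coeff_self (k : ℤ) : (T k : R).coeff k = 1 := by
  rw [T_apply]; simp

lemma T_coeff_ne {k d : ℤ} (h : k ≠ d) : (T k : R).coeff d = 0 := by
  rw [T_apply, if_neg h]

/-- switch of the x-lamp -/
lemma rel_x0 {D : ℤ} {p q : A} (h : Bd D (p⁻¹ * q)) (hk : q.x - p.x = 1 ∨ q.x - p.x = -1) :
    |p.n| + |q.n| ≤ D := by
  have h1 := rel_x h 0 (by
    rcases hk with hk | hk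
    · rw [hk, neg_zero, one_coeff]; decide
    · rw [hk, neg_zero, AddMonoidAlgebra.coeff_neg, Finsupp.neg_apply, one_coeff]; decide)
  rwa [zero_sub, zero_sub, abs_neg, abs_neg] at h1

lemma lower_same {n r r' : ℕ} {x x' D : ℤ} (hn : 1 ≤ n) (hr : r ≤ 3) (hr' : r' ≤ 3)
    (hx0 : 0 ≤ x) (_hx1 : x ≤ KK n) (_hx0' : 0 ≤ x') (hx1' : x' ≤ KK n)
    (ht : time n r x ≤ time n r' x') (h : Bd D ((pt n r x)⁻¹ * pt n r' x')) :
    time n r' x' - time n r x ≤ 40 * D + 40 := by
  have hK := KK_pos n
  have hD : 0 ≤ D := (abs_nonneg _).trans (rel_n h)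
  have hn1 := rel_n h
  unfold time at *
  have hc1 : (Cn (n + 1) - Cn n).coeff (4 ^ (v n)) = 1 :=
    Cn_coeff_one hn le_rfl (by omega) rfl (by intro m h1 h2 h3; omega)
  interval_cases r <;> interval_cases r'
  · -- (0,0)
    have := abs_le.1 hn1
    simp only [pt] at this
    push_cast at *; linarith
  · -- (0,1)
    have h1 := rel_y h (KK n) (by simp only [pt, sub_zero]; rw [T_coeff_self]; decide)
    simp only [pt] at h1
    have a1 := le_abs_self (KK n - x)
    have a2 := le_abs_self (KK n - (KK n - x'))
    push_cast at *; linarith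
  · -- (0,2)
    have h1 := rel_y h (KK n) (by simp only [pt, sub_zero]; rw [T_coeff_self]; decide)
    have h2 := rel_x0 h (by simp [pt])
    simp only [pt] at h1 h2
    have a1 := le_abs_self (KK n - x)
    have a2 := le_abs_self (KK n - x')
    have a3 := le_abs_self x
    have a4 := le_abs_self x'
    push_cast at *; linarith
  · -- (0,3)
    have h1 := rel_c h (v n) (by
      simp only [pt, sub_zero, mul_zero]; rw [hc1]; decide)
    have : KK n ≤ D := h1
    push_cast at *; linarith
  · -- (1,0)
    exfalso; push_cast at *; linarith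
  · have := abs_le.1 hn1
    simp only [pt] at this
    push_cast at *; linarith
  · -- (1,2)
    have h2 := rel_x0 h (by simp [pt])
    simp only [pt] at h2
    have a3 := le_abs_self (KK n - x)
    have a4 := le_abs_self x'
    push_cast at *; linarith
  · -- (1,3)
    have h1 := rel_y h (KK n) (by
      simp only [pt, zero_sub]
      rw [AddMonoidAlgebra.coeff_neg, Finsupp.neg_apply, T_coeff_self]; decide)
    have h2 := rel_x0 h (by simp [pt])
    simp only [pt] at h1 h2
    have a1 := le_abs_self (KK n - (KK n - x))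
    have a2 := le_abs_self (KK n - (KK n - x'))
    have a3 := le_abs_self (KK n - x)
    have a4 := le_abs_self (KK n - x')
    push_cast at *; linarith
  · exfalso; push_cast at *; linarith
  · exfalso; push_cast at *; linarith
  · have := abs_le.1 hn1
    simp only [pt] at this
    push_cast at *; linarith
  · -- (2,3)
    have h1 := rel_y h (KK n) (by
      simp only [pt, zero_sub]
      rw [AddMonoidAlgebra.coeff_neg, Finsupp.neg_apply, T_coeff_self]; decide)
    simp only [pt] at h1
    have a1 := le_abs_self (KK n - x)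
    have a2 := le_abs_self (KK n - (KK n - x'))
    push_cast at *; linarith
  · exfalso; push_cast at *; linarith
  · exfalso; push_cast at *; linarith
  · exfalso; push_cast at *; linarith
  · have := abs_le.1 hn1
    simp only [pt] at this
    push_cast at *; linarith


/-- index of the Gray code attached to a phase -/
def cidx (n r : ℕ) : ℕ := if r = 0 then n else n + 1

lemma cidx_bd (n r : ℕ) : n ≤ cidx n r ∧ cidx n r ≤ n + 1 := by
  unfold cidx; split_ifs <;> omega

/-- x-lamp at the origin -/
def xb (r : ℕ) : ZMod 2 := if r ≤ 1 then 1 else 0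

/-- coefficient of the y-lamps -/
def yc (n r J : ℕ) : ZMod 2 := if (r = 1 ∨ r = 2) ∧ v n = J then 1 else 0

lemma pt_cidx {n r : ℕ} {x : ℤ} (hr : r ≤ 3) : (pt n r x).c = Cn (cidx n r) := by
  interval_cases r <;> rfl

lemma pt_x {n r : ℕ} {x : ℤ} (hr : r ≤ 3) :
    (pt n r x).x = 1 ∧ xb r = 1 ∨ (pt n r x).x = 0 ∧ xb r = 0 := by
  interval_cases r <;> simp [pt, xb]

lemma pt_y {n r : ℕ} {x : ℤ} (hr : r ≤ 3) (J : ℕ) : (pt n r x).y.coeff (4 ^ J) = yc n r J := by
  interval_cases r
  · simp [pt, yc]
  · simp [pt, yc, KK, T_apply]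
  · simp [pt, yc, KK, T_apply]
  · simp [pt, yc]

lemma pt_cursor {n r : ℕ} {x : ℤ} (hr : r ≤ 3) (hx0 : 0 ≤ x) (hx1 : x ≤ KK n) :
    0 ≤ (pt n r x).n ∧ (pt n r x).n ≤ KK n := by
  interval_cases r <;> simp only [pt] <;> constructor <;> linarith

section
variable {n r n' r' : ℕ} {x x' D : ℤ}

lemma central (hr : r ≤ 3) (hr' : r' ≤ 3) (h : Bd D ((pt n r x)⁻¹ * pt n' r' x')) (J : ℕ)
    (hw : (Cn (cidx n' r') - Cn (cidx n r)).coeff (4 ^ J) - xb r * (yc n' r' J - yc n r J) ≠ 0) :
    (4 : ℤ) ^ J ≤ D := by
  refine rel_c h J ?_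
  rw [pt_cidx hr, pt_cidx hr']
  rw [AddMonoidAlgebra.coeff_sub, Finsupp.sub_apply] at hw
  rcases pt_x (n := n) (x := x) hr with ⟨h1, h2⟩ | ⟨h1, h2⟩
  · rw [h1, one_mul]
    rw [h2, one_mul] at hw
    simp only [AddMonoidAlgebra.coeff_sub, Finsupp.sub_apply]
    rw [pt_y hr, pt_y hr']
    exact hw
  · rw [h1, zero_mul, sub_zero, AddMonoidAlgebra.coeff_sub, Finsupp.sub_apply]
    rw [h2, zero_mul, sub_zero] at hw
    exact hw

lemma lampy (hr : r ≤ 3) (hr' : r' ≤ 3) (h : Bd D ((pt n r x)⁻¹ * pt n' r' x')) (J : ℕ)
    (hw : yc n' r' J - yc n r J ≠ 0) :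
    |4 ^ J - (pt n r x).n| + |4 ^ J - (pt n' r' x').n| ≤ D := by
  refine rel_y h (4 ^ J) ?_
  rw [AddMonoidAlgebra.coeff_sub, Finsupp.sub_apply, pt_y hr, pt_y hr']
  exact hw

lemma lampx (hr : r ≤ 3) (hr' : r' ≤ 3) (h : Bd D ((pt n r x)⁻¹ * pt n' r' x'))
    (hw : xb r ≠ xb r') : |(pt n r x).n| + |(pt n' r' x').n| ≤ D := by
  refine rel_x0 h ?_
  rcases pt_x (n := n) (x := x) hr with ⟨h1, h2⟩ | ⟨h1, h2⟩ <;>
    rcases pt_x (n := n') (x := x') hr' with ⟨h3, h4⟩ | ⟨h3, h4⟩
  · exact absurd (h2.trans h4.symm) hw
  · right; rw [h1, h3]; ring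
  · left; rw [h1, h3]; ring
  · exact absurd (h2.trans h4.symm) hw

end

lemma KK_lt {n n' : ℕ} (h : v n < v n') : 4 * KK n ≤ KK n' := by
  unfold KK
  calc (4 : ℤ) * 4 ^ v n = 4 ^ (v n + 1) := by ring
    _ ≤ 4 ^ v n' := pow_le_pow_right₀ (by norm_num) h

lemma time3 {n : ℕ} {x : ℤ} (hn : 1 ≤ n) : time n 3 x = Tm (n + 1) - (KK n - x) := by
  rw [Tm_succ hn]
  unfold time KK
  push_cast; ring

lemma lower_lt {n r n' r' : ℕ} {x x' D : ℤ} (hn : 1 ≤ n) (hr : r ≤ 3) (hr' : r' ≤ 3)
    (hx0 : 0 ≤ x) (hx1 : x ≤ KK n) (hx0' : 0 ≤ x') (hx1' : x' ≤ KK n')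
    (hnn : n < n') (h : Bd D ((pt n r x)⁻¹ * pt n' r' x')) :
    time n' r' x' - time n r x ≤ 40 * D + 40 := by
  have hD : 0 ≤ D := (abs_nonneg _).trans (rel_n h)
  have hrn := abs_le.1 (rel_n h)
  obtain ⟨hs0, hs1⟩ := pt_cursor (n := n) hr hx0 hx1
  obtain ⟨hs0', hs1'⟩ := pt_cursor (n := n') hr' hx0' hx1'
  have hKn := KK_pos n
  have hKn' := KK_pos n'
  obtain ⟨M, hM1, hM2, hMmax⟩ := exists_max hn (show n < n' + 1 by omega)
  have htot : Tm (n' + 1) - Tm n ≤ 16 * 4 ^ (v M) := by
    refine Tm_bound hn (by omega) fun m h1 h2 => ?_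
    by_cases hm : m = M
    · rw [hm]
    · exact (hMmax m h1 h2 hm).le
  have ht1 := lt_time (n := n) (r := r) hx0
  have ht2 := time_le (n := n') (by omega) hr' hx1'
  -- it is enough to bound `4 ^ v M`
  have fin1 : (4 : ℤ) ^ (v M) ≤ 2 * D → time n' r' x' - time n r x ≤ 40 * D + 40 := by
    intro hh; linarith
  have hα := cidx_bd n r
  have hβ := cidx_bd n' r'
  rcases Nat.lt_or_ge n M with hnM | hMn
  · rcases Nat.lt_or_ge M n' with hMn' | hn'M
    · -- case (i)
      apply fin1
      have hvn : v n ≠ v M := (hMmax n le_rfl (by omega) (by omega)).ne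
      have hvn' : v n' ≠ v M := (hMmax n' (by omega) (by omega) (by omega)).ne
      have := central hr hr' h (v M) (by
        rw [Cn_coeff_one (M := M) (by omega) (by omega) (by omega) rfl
          (fun m h1 h2 h3 => (hMmax m (by omega) (by omega) h3).ne)]
        simp [yc, hvn, hvn'])
      linarith
    · -- case (iii)
      have hMeq : M = n' := by omega
      subst hMeq
      have hvlt : v n < v M := hMmax n le_rfl (by omega) (by omega)
      have hK4 := KK_lt hvlt
      have hr'c : r' = 0 ∨ (r' = 1 ∨ r' = 2) ∨ r' = 3 := by omega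
      rcases hr'c with hr0 | hr12 | hr3
      · subst hr0
        have hcid : cidx M 0 = M := rfl
        have htime : time M 0 x' = Tm M + 1 + x' := by unfold time; push_cast; ring
        have hq : (pt M 0 x').n = x' := rfl
        rw [hq] at hrn
        obtain ⟨M', hM'1, hM'2, hM'max⟩ := exists_max hn hnn
        have htot' : Tm M - Tm n ≤ 16 * 4 ^ (v M') := by
          refine Tm_bound hn (by omega) fun m h1 h2 => ?_
          by_cases hm : m = M'
          · rw [hm]
          · exact (hM'max m h1 h2 hm).le
        rcases Nat.lt_or_ge n M' with hnM' | hM'n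
        · have hvn : v n ≠ v M' := (hM'max n le_rfl (by omega) (by omega)).ne
          have hvM : v M ≠ v M' := (hMmax M' (by omega) (by omega) (by omega)).ne'
          have hle : (4 : ℤ) ^ (v M') ≤ D := central hr hr' h (v M') (by
            rw [hcid, Cn_coeff_one (M := M') (by omega) (by omega) (by omega) rfl
              (fun m h1 h2 h3 => (hM'max m (by omega) (by omega) h3).ne)]
            simp [yc, hvn])
          have hvle : KK n ≤ 4 ^ (v M') :=
            pow_le_pow_right₀ (by norm_num) (hM'max n le_rfl (by omega) (by omega)).le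
          rw [htime]
          linarith
        · have hM'n' : M' = n := by omega
          subst hM'n'
          have hvM : v M ≠ v M' := by omega
          have hrc : r = 0 ∨ r = 1 ∨ r = 2 ∨ r = 3 := by omega
          rcases hrc with h0 | h1 | h2 | h3
          · subst h0
            have hle : (4 : ℤ) ^ (v M') ≤ D := central hr hr' h (v M') (by
              rw [hcid, show cidx M' 0 = M' from rfl,
                Cn_coeff_one (M := M') (by omega) (by omega) (by omega) rfl
                (fun m h1 h2 h3 => (hM'max m (by omega) (by omega) h3).ne)]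
              simp [yc])
            have : KK M' ≤ D := hle
            rw [htime]
            linarith
          · subst h1
            have hle : (4 : ℤ) ^ (v M') ≤ D := central hr hr' h (v M') (by
              rw [hcid, show cidx M' 1 = M' + 1 from rfl,
                Cn_coeff_zero (by omega) (by omega)
                (fun m h1 h2 => (hM'max m (by omega) (by omega) (by omega)).ne)]
              simp [yc, xb])
            have : KK M' ≤ D := hle
            rw [htime]
            linarith
          · subst h2
            have hx := lampx hr hr' h (by decide)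
            have hy := lampy hr hr' h (v M') (by simp [yc])
            simp only [pt] at hx hy
            have a1 := le_abs_self x
            have a2 := le_abs_self x'
            have a3 := le_abs_self ((4 : ℤ) ^ (v M') - x)
            have a4 := le_abs_self ((4 : ℤ) ^ (v M') - x')
            rw [htime]
            linarith
          · subst h3
            have hx := lampx hr hr' h (by decide)
            simp only [pt] at hx
            have a1 := le_abs_self (KK M' - x)
            have a2 := le_abs_self x'
            rw [htime, time3 hn]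
            rcases Nat.lt_or_ge (M' + 1) M with hlt | hge
            · obtain ⟨M'', k1, k2, k3⟩ := exists_max (show 1 ≤ M' + 1 by omega) hlt
              have hle : (4 : ℤ) ^ (v M'') ≤ D := central hr hr' h (v M'') (by
                rw [hcid, show cidx M' 3 = M' + 1 from rfl,
                  Cn_coeff_one (M := M'') (by omega) (by omega) (by omega) rfl
                  (fun m h1 h2 h3 => (k3 m (by omega) (by omega) h3).ne)]
                simp [xb])
              have htot'' : Tm M - Tm (M' + 1) ≤ 16 * 4 ^ (v M'') := by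
                refine Tm_bound (by omega) (by omega) fun m h1 h2 => ?_
                by_cases hm : m = M''
                · rw [hm]
                · exact (k3 m h1 h2 hm).le
              linarith
            · have : M = M' + 1 := by omega
              subst this
              linarith
      · apply fin1
        have hy := lampy hr hr' h (v M) (by
          have : v n ≠ v M := by omega
          simp [yc, hr12, this])
        have a1 := le_abs_self ((4 : ℤ) ^ (v M) - (pt n r x).n)
        have a2 := abs_nonneg ((4 : ℤ) ^ (v M) - (pt M r' x').n)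
        have : KK M = 4 ^ (v M) := rfl
        linarith
      · subst hr3
        apply fin1
        have hvne : v n ≠ v M := by omega
        have := central hr hr' h (v M) (by
          rw [show cidx M 3 = M + 1 from rfl,
            Cn_coeff_one (M := M) (by omega) (by omega) (by omega) rfl
            (fun m h1 h2 h3 => (hMmax m (by omega) (by omega) h3).ne)]
          simp [yc, hvne])
        linarith
  · -- case (ii)
    have hMeq : M = n := by omega
    subst hMeq
    have hvlt : v n' < v M := hMmax n' (by omega) (by omega) (by omega)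
    have hvne : v n' ≠ v M := hvlt.ne
    have hK4 := KK_lt hvlt
    have hrc : r = 0 ∨ r = 1 ∨ r = 2 ∨ r = 3 := by omega
    rcases hrc with h0 | h1 | h2 | h3
    · subst h0
      apply fin1
      have := central hr hr' h (v M) (by
        rw [show cidx M 0 = M from rfl,
          Cn_coeff_one (M := M) (by omega) (by omega) (by omega) rfl
          (fun m h1 h2 h3 => (hMmax m (by omega) (by omega) h3).ne)]
        simp [yc, hvne])
      linarith
    · subst h1
      apply fin1
      have := central hr hr' h (v M) (by
        rw [show cidx M 1 = M + 1 from rfl,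
          Cn_coeff_zero (by omega) (by omega)
          (fun m h1 h2 => (hMmax m (by omega) (by omega) (by omega)).ne)]
        simp [yc, xb, hvne])
      linarith
    · subst h2
      apply fin1
      have hy := lampy hr hr' h (v M) (by simp [yc, hvne])
      have a1 := abs_nonneg ((4 : ℤ) ^ (v M) - (pt M 2 x).n)
      have a2 := le_abs_self ((4 : ℤ) ^ (v M) - (pt n' r' x').n)
      have : KK M = 4 ^ (v M) := rfl
      linarith
    · subst h3
      have hp : (pt M 3 x).n = KK M - x := rfl
      rw [hp] at hrn
      rw [time3 hn]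
      obtain ⟨M', hM'1, hM'2, hM'max⟩ := exists_max (show 1 ≤ M + 1 by omega)
        (show M + 1 < n' + 1 by omega)
      have htot' : Tm (n' + 1) - Tm (M + 1) ≤ 16 * 4 ^ (v M') := by
        refine Tm_bound (by omega) (by omega) fun m h1 h2 => ?_
        by_cases hm : m = M'
        · rw [hm]
        · exact (hM'max m h1 h2 hm).le
      rcases Nat.lt_or_ge M' n' with hlt | hge
      · have hle : (4 : ℤ) ^ (v M') ≤ D := central hr hr' h (v M') (by
          rw [show cidx M 3 = M + 1 from rfl,
            Cn_coeff_one (M := M') (by omega) (by omega) (by omega) rfl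
            (fun m h1 h2 h3 => (hM'max m (by omega) (by omega) h3).ne)]
          simp [xb])
        have hvle : KK n' ≤ 4 ^ (v M') :=
          pow_le_pow_right₀ (by norm_num) (hM'max n' (by omega) (by omega) (by omega)).le
        linarith
      · have hM'eq : M' = n' := by omega
        subst hM'eq
        by_cases hr0 : r' = 0
        · subst hr0
          have hx := lampx hr hr' h (by decide)
          simp only [pt] at hx
          have a1 := le_abs_self (KK M - x)
          have a2 := le_abs_self x'
          have htime : time M' 0 x' = Tm M' + 1 + x' := by unfold time; push_cast; ring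
          rw [htime]
          rcases Nat.lt_or_ge (M + 1) M' with hlt | hge
          · obtain ⟨M'', k1, k2, k3⟩ := exists_max (show 1 ≤ M + 1 by omega) hlt
            have hle : (4 : ℤ) ^ (v M'') ≤ D := central hr hr' h (v M'') (by
              rw [show cidx M' 0 = M' from rfl, show cidx M 3 = M + 1 from rfl,
                Cn_coeff_one (M := M'') (by omega) (by omega) (by omega) rfl
                (fun m h1 h2 h3 => (k3 m (by omega) (by omega) h3).ne)]
              simp [xb])
            have htot'' : Tm M' - Tm (M + 1) ≤ 16 * 4 ^ (v M'') := by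
              refine Tm_bound (by omega) (by omega) fun m h1 h2 => ?_
              by_cases hm : m = M''
              · rw [hm]
              · exact (k3 m h1 h2 hm).le
            linarith
          · have : M' = M + 1 := by omega
            subst this
            linarith
        · have hc : cidx M' r' = M' + 1 := by unfold cidx; rw [if_neg hr0]
          have hle : (4 : ℤ) ^ (v M') ≤ D := central hr hr' h (v M') (by
            rw [hc, show cidx M 3 = M + 1 from rfl,
              Cn_coeff_one (M := M') (by omega) (by omega) (by omega) rfl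
              (fun m h1 h2 h3 => (hM'max m (by omega) (by omega) h3).ne)]
            simp [xb])
          have : KK M' ≤ D := hle
          linarith

end Pool.Agent.Helper55.QRay
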