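import Pool.Agent.Helper55_QRay.GroupA

/-!
# The ruler sequence, the Gray code and the time function
-/

set_option autoImplicit false

namespace Pool.Agent.Helper55.QRay

open LaurentPolynomial A

/-- The 2-adic valuation. -/
abbrev v (n : ℕ) : ℕ := padicValNat 2 n

lemma v_between {m m' : ℕ} (hm : 1 ≤ m) (hlt : m < m') (h : v m = v m') :
    ∃ m'', m < m'' ∧ m'' < m' ∧ v m < v m'' := by
  have h2 : Nat.Prime 2 := Nat.prime_two
  obtain ⟨o, ho⟩ : 2 ^ (v m) ∣ m := pow_padicValNat_dvd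
  obtain ⟨o', ho'⟩ : 2 ^ (v m') ∣ m' := pow_padicValNat_dvd
  have n1 : ¬ 2 ∣ o := by
    rintro ⟨c, rfl⟩
    have : 2 ^ (v m + 1) ∣ m := ⟨c, by rw [pow_succ]; linarith [ho]⟩
    exact pow_succ_padicValNat_not_dvd (by omega) this
  have n2 : ¬ 2 ∣ o' := by
    rintro ⟨c, rfl⟩
    have : 2 ^ (v m' + 1) ∣ m' := ⟨c, by rw [pow_succ]; linarith [ho']⟩
    exact pow_succ_padicValNat_not_dvd (by omega) this
  rw [← h] at ho'
  have hpos : 0 < 2 ^ v m := by positivity
  have hoo : o < o' := by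
    by_contra hcon
    push Not at hcon
    have := Nat.mul_le_mul_left (2 ^ v m) hcon
    omega
  refine ⟨2 ^ v m * (o + 1), ?_, ?_, ?_⟩
  · calc m = 2 ^ v m * o := ho
      _ < 2 ^ v m * (o + 1) := by
        exact Nat.mul_lt_mul_of_pos_left (Nat.lt_succ_self o) hpos
  · calc 2 ^ v m * (o + 1) < 2 ^ v m * o' := by
          exact Nat.mul_lt_mul_of_pos_left (by omega) hpos
      _ = m' := ho'.symm
  · have hne : 2 ^ v m * (o + 1) ≠ 0 := by positivity
    have hd : 2 ^ (v m + 1) ∣ 2 ^ v m * (o + 1) := by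
      rw [pow_succ]
      exact mul_dvd_mul_left _ (by omega)
    have := (padicValNat_dvd_iff_le hne).1 hd
    exact this

lemma exists_max {a b : ℕ} (ha : 1 ≤ a) (hab : a < b) :
    ∃ M, a ≤ M ∧ M < b ∧ ∀ m, a ≤ m → m < b → m ≠ M → v m < v M := by
  obtain ⟨M, hM, hmax⟩ := Finset.exists_max_image (Finset.Ico a b) v
    ⟨a, by simp [hab]⟩
  rw [Finset.mem_Ico] at hM
  refine ⟨M, hM.1, hM.2, ?_⟩
  intro m h1 h2 hne
  have h3 : v m ≤ v M := hmax m (by simp [h1, h2])
  rcases lt_or_eq_of_le h3 with h | h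
  · exact h
  · exfalso
    rcases lt_or_gt_of_ne hne with h4 | h4
    · obtain ⟨m'', k1, k2, k3⟩ := v_between (by omega) h4 h
      have := hmax m'' (by simp; omega)
      omega
    · obtain ⟨m'', k1, k2, k3⟩ := v_between (by omega) h4 h.symm
      have := hmax m'' (by simp; omega)
      omega

lemma pow4_inj {i j : ℕ} : ((4 : ℤ) ^ i = 4 ^ j) ↔ i = j := by
  constructor
  · intro h
    have h' : (4 : ℕ) ^ i = 4 ^ j := by exact_mod_cast h
    exact Nat.pow_right_injective (by norm_num) h'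
  · rintro rfl; rfl

/-- The Gray code. -/
noncomputable def Cn (n : ℕ) : R := ∑ m ∈ Finset.Ico 1 n, T ((4 : ℤ) ^ (v m))

lemma Cn_one : Cn 1 = 0 := by simp [Cn]

lemma Cn_succ {n : ℕ} (hn : 1 ≤ n) : Cn (n + 1) = Cn n + T ((4 : ℤ) ^ (v n)) := by
  unfold Cn
  rw [Finset.sum_Ico_succ_top hn]

lemma Cn_sub {a b : ℕ} (ha : 1 ≤ a) (hab : a ≤ b) :
    Cn b - Cn a = ∑ m ∈ Finset.Ico a b, T ((4 : ℤ) ^ (v m)) := by
  unfold Cn
  rw [sub_eq_iff_eq_add, add_comm, Finset.sum_Ico_consecutive _ ha hab]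

lemma Cn_sub_coeff {a b : ℕ} (ha : 1 ≤ a) (hab : a ≤ b) (J : ℕ) :
    (Cn b - Cn a).coeff ((4 : ℤ) ^ J) = ∑ m ∈ Finset.Ico a b, if v m = J then (1 : ZMod 2) else 0 := by
  rw [Cn_sub ha hab, AddMonoidAlgebra.coeff_sum, Finsupp.finsetSum_apply]
  refine Finset.sum_congr rfl fun m _ => ?_
  rw [T_apply]
  simp only [pow4_inj]

lemma Cn_coeff_one {a b M J : ℕ} (ha : 1 ≤ a) (hM : a ≤ M) (hMb : M < b) (hJ : v M = J)
    (huniq : ∀ m, a ≤ m → m < b → m ≠ M → v m ≠ J) :
    (Cn b - Cn a).coeff ((4 : ℤ) ^ J) = 1 := by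
  rw [Cn_sub_coeff ha (by omega), Finset.sum_eq_single M]
  · simp [hJ]
  · intro m hm hne
    rw [Finset.mem_Ico] at hm
    rw [if_neg (huniq m hm.1 hm.2 hne)]
  · intro h
    exfalso; apply h; rw [Finset.mem_Ico]; omega

lemma Cn_coeff_zero {a b J : ℕ} (ha : 1 ≤ a) (hab : a ≤ b)
    (hnone : ∀ m, a ≤ m → m < b → v m ≠ J) :
    (Cn b - Cn a).coeff ((4 : ℤ) ^ J) = 0 := by
  rw [Cn_sub_coeff ha hab]
  refine Finset.sum_eq_zero fun m hm => ?_
  rw [Finset.mem_Ico] at hm
  rw [if_neg (hnone m hm.1 hm.2)]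

/-- Starting time of segment `n` (minus one). -/
def Tm (n : ℕ) : ℤ := ∑ m ∈ Finset.Ico 1 n, 4 * ((4 : ℤ) ^ (v m) + 1)

lemma Tm_one : Tm 1 = 0 := by simp [Tm]

lemma Tm_succ {n : ℕ} (hn : 1 ≤ n) : Tm (n + 1) = Tm n + 4 * ((4 : ℤ) ^ (v n) + 1) := by
  unfold Tm
  rw [Finset.sum_Ico_succ_top hn]

lemma Tm_bound_aux (J : ℕ) : ∀ a b : ℕ, 1 ≤ a → a ≤ b → (∀ m, a ≤ m → m < b → v m < J) →
    Tm b - Tm a ≤ 2 * 4 ^ J + 2 * 2 ^ J - 4 := by
  induction J with
  | zero =>
    intro a b ha hab h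
    have : a = b := by
      by_contra hne
      have := h a le_rfl (by omega)
      omega
    subst this
    norm_num
  | succ J ih =>
    intro a b ha hab h
    by_cases hex : ∃ M, a ≤ M ∧ M < b ∧ v M = J
    · obtain ⟨M, hM1, hM2, hM3⟩ := hex
      have h1 : ∀ m, a ≤ m → m < M → v m < J := by
        intro m k1 k2
        have k3 := h m k1 (by omega)
        by_contra hcon
        have k4 : v m = v M := by omega
        obtain ⟨m'', l1, l2, l3⟩ := v_between (by omega) k2 k4
        have := h m'' (by omega) (by omega)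
        omega
      have h2 : ∀ m, M + 1 ≤ m → m < b → v m < J := by
        intro m k1 k2
        have k3 := h m (by omega) k2
        by_contra hcon
        have k4 : v M = v m := by omega
        obtain ⟨m'', l1, l2, l3⟩ := v_between (by omega) (by omega) k4
        have := h m'' (by omega) (by omega)
        omega
      have i1 := ih a M ha hM1 h1
      have i2 := ih (M + 1) b (by omega) (by omega) h2
      have i3 := Tm_succ (n := M) (by omega)
      rw [hM3] at i3
      have e1 : (4 : ℤ) ^ (J + 1) = 4 * 4 ^ J := by ring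
      have e2 : (2 : ℤ) ^ (J + 1) = 2 * 2 ^ J := by ring
      rw [e1, e2]
      linarith
    · push Not at hex
      have i1 := ih a b ha hab (fun m k1 k2 => by
        have k3 := h m k1 k2
        have k4 := hex m k1 k2
        omega)
      have e1 : (4 : ℤ) ^ (J + 1) = 4 * 4 ^ J := by ring
      have e2 : (2 : ℤ) ^ (J + 1) = 2 * 2 ^ J := by ring
      have p1 : (0 : ℤ) < 4 ^ J := by positivity
      have p2 : (0 : ℤ) < 2 ^ J := by positivity
      rw [e1, e2]
      linarith

lemma Tm_bound {a b J : ℕ} (ha : 1 ≤ a) (hab : a ≤ b) (h : ∀ m, a ≤ m → m < b → v m ≤ J) :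
    Tm b - Tm a ≤ 16 * 4 ^ J := by
  have h1 := Tm_bound_aux (J + 1) a b ha hab (fun m k1 k2 => Nat.lt_succ_of_le (h m k1 k2))
  have e1 : (4 : ℤ) ^ (J + 1) = 4 * 4 ^ J := by ring
  have e2 : (2 : ℤ) ^ (J + 1) = 2 * 2 ^ J := by ring
  have e3 : (2 : ℤ) ^ J ≤ 4 ^ J := pow_le_pow_left₀ (by norm_num) (by norm_num) J
  have p1 : (0 : ℤ) < 4 ^ J := by positivity
  rw [e1, e2] at h1
  linarith

lemma Tm_mono {a b : ℕ} (ha : 1 ≤ a) (hab : a ≤ b) : Tm a ≤ Tm b := by
  induction b, hab using Nat.le_induction with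
  | base => exact le_rfl
  | succ n hn ih =>
    rw [Tm_succ (by omega)]
    have : (0 : ℤ) < 4 ^ v n := by positivity
    linarith

/-- Surjectivity of the Gray code onto the finite subsets of powers of 4. -/
lemma gray_surj (J : ℕ) : ∀ f : R, (∀ d : ℤ, f.coeff d ≠ 0 → ∃ i : ℕ, i < J ∧ d = 4 ^ i) →
    ∃ n : ℕ, 1 ≤ n ∧ n ≤ 2 ^ J ∧ Cn n = f := by
  induction J with
  | zero =>
    intro f hf
    refine ⟨1, le_rfl, by norm_num, ?_⟩
    rw [Cn_one]
    symm
    ext d
    by_contra hne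
    obtain ⟨i, hi, -⟩ := hf d (by simpa using hne)
    omega
  | succ J ih =>
    intro f hf
    by_cases hJ : f.coeff (4 ^ J) = 0
    · obtain ⟨n, h1, h2, h3⟩ := ih f (by
        intro d hd
        obtain ⟨i, hi, rfl⟩ := hf d hd
        refine ⟨i, ?_, rfl⟩
        rcases Nat.lt_succ_iff_lt_or_eq.1 hi with h | h
        · exact h
        · subst h; exact absurd hJ hd)
      exact ⟨n, h1, h2.trans (Nat.pow_le_pow_right (by norm_num) (by omega)), h3⟩
    · have hpos : 1 ≤ 2 ^ J := Nat.one_le_two_pow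
      have hJ1 : f.coeff (4 ^ J) = 1 := by
        have : ∀ a : ZMod 2, a ≠ 0 → a = 1 := by decide
        exact this _ hJ
      -- support of `Cn (2^J)`
      have hsupp : ∀ n : ℕ, n ≤ 2 ^ J → ∀ d : ℤ, (Cn n).coeff d ≠ 0 →
          ∃ i : ℕ, i < J ∧ d = 4 ^ i := by
        intro n hn d hd
        unfold Cn at hd
        rw [AddMonoidAlgebra.coeff_sum, Finsupp.finsetSum_apply] at hd
        obtain ⟨m, hm, hm'⟩ := Finset.exists_ne_zero_of_sum_ne_zero hd
        rw [T_apply] at hm'
        rw [Finset.mem_Ico] at hm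
        have hd2 : (4 : ℤ) ^ v m = d := by
          by_contra hcon
          rw [if_neg hcon] at hm'
          exact hm' rfl
        refine ⟨v m, ?_, hd2.symm⟩
        by_contra hcon
        push Not at hcon
        have : 2 ^ J ∣ m := (pow_dvd_pow 2 hcon).trans pow_padicValNat_dvd
        have := Nat.le_of_dvd (by omega) this
        omega
      obtain ⟨n, h1, h2, h3⟩ := ih (f - T (4 ^ J) - Cn (2 ^ J)) (by
        intro d hd
        rw [AddMonoidAlgebra.coeff_sub, AddMonoidAlgebra.coeff_sub] at hd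
        simp only [Finsupp.sub_apply, T_apply] at hd
        by_cases hC : (Cn (2 ^ J)).coeff d = 0
        · rw [hC, sub_zero] at hd
          by_cases hdJ : (4 : ℤ) ^ J = d
          · rw [if_pos hdJ, ← hdJ, hJ1, sub_self] at hd
            exact absurd rfl hd
          · rw [if_neg hdJ, sub_zero] at hd
            obtain ⟨i, hi, rfl⟩ := hf d hd
            refine ⟨i, ?_, rfl⟩
            rcases Nat.lt_succ_iff_lt_or_eq.1 hi with h | h
            · exact h
            · subst h; exact absurd rfl hdJ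
        · exact hsupp _ le_rfl d hC)
      refine ⟨2 ^ J + n, by omega, by rw [pow_succ]; omega, ?_⟩
      -- `Cn (2^J + n) = Cn (2^J) + T (4^J) + Cn n`
      have hshift : ∀ m, 1 ≤ m → m < 2 ^ J → v (2 ^ J + m) = v m := by
        intro m k1 k2
        have hlt : v m < J := by
          by_contra hcon
          push Not at hcon
          have : 2 ^ J ∣ m := (pow_dvd_pow 2 hcon).trans pow_padicValNat_dvd
          have := Nat.le_of_dvd (by omega) this
          omega
        apply le_antisymm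
        · by_contra hcon
          push Not at hcon
          have d1 : 2 ^ (v m + 1) ∣ 2 ^ J + m :=
            (pow_dvd_pow 2 hcon).trans pow_padicValNat_dvd
          have d2 : 2 ^ (v m + 1) ∣ 2 ^ J := pow_dvd_pow 2 hlt
          have d3 : 2 ^ (v m + 1) ∣ m := (Nat.dvd_add_right d2).1 d1
          exact pow_succ_padicValNat_not_dvd (by omega) d3
        · have d1 : 2 ^ (v m) ∣ m := pow_padicValNat_dvd
          have d2 : 2 ^ (v m) ∣ 2 ^ J := pow_dvd_pow 2 hlt.le
          exact (padicValNat_dvd_iff_le (by omega)).1 (d2.add d1)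
      have hvJ : v (2 ^ J) = J := by simp [v]
      have key : ∀ n, 1 ≤ n → n ≤ 2 ^ J → Cn (2 ^ J + n) = Cn (2 ^ J) + T (4 ^ J) + Cn n := by
        intro n k1
        induction n, k1 using Nat.le_induction with
        | base =>
          intro _
          rw [Cn_succ hpos, Cn_one, add_zero, hvJ]
        | succ n hn ihn =>
          intro k2
          rw [← add_assoc, Cn_succ (by omega), ihn (by omega), Cn_succ hn,
            hshift n hn (by omega)]
          ring
      rw [key n h1 h2, h3]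
      ring

end Pool.Agent.Helper55.QRay
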