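import Pool.Agent.Helper55_QRay.Defs

/-!
# Central involutions and actions on trees
-/

set_option autoImplicit false

namespace Pool.Agent.Helper55.QRay

universe u v

section
variable {G : Type u} [Group G] {V : Type v} (T : SimpleGraph V) [MulAction G V]

/-- The graph endomorphism given by a group element. -/
def actHom (hadj : ∀ (g : G) (a b : V), T.Adj a b → T.Adj (g • a) (g • b)) (g : G) : T →g T where
  toFun a := g • a
  map_rel' := hadj g _ _

/-- An involution of a tree without inversions fixes a vertex. -/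
lemma involution_fixes (hT : T.IsTree)
    (hadj : ∀ (g : G) (a b : V), T.Adj a b → T.Adj (g • a) (g • b))
    (hinv : ∀ (g : G) (a b : V), T.Adj a b → ¬ (g • a = b ∧ g • b = a))
    (c : G) (hc : c * c = 1) : ∃ a : V, c • a = a := by
  obtain ⟨a⟩ : Nonempty V := hT.connected.nonempty
  obtain ⟨p, hp, -⟩ := hT.existsUnique_path a (c • a)
  have hca : actHom T hadj c a = c • a := rfl
  have hcc : actHom T hadj c (c • a) = a := by
    change c • (c • a) = a
    rw [← mul_smul, hc, one_smul]
  -- the image path, reversed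
  let q : T.Walk a (c • a) := ((p.map (actHom T hadj c)).copy hca hcc).reverse
  have hinj : Function.Injective (actHom T hadj c) := fun x y h => by
    have h' : c • x = c • y := h
    exact smul_left_cancel c h'
  have hq : q.IsPath := by
    refine SimpleGraph.Walk.IsPath.reverse ?_
    rw [SimpleGraph.Walk.isPath_copy]
    exact SimpleGraph.Walk.IsPath.map hinj hp
  have hpq : q = p := (hT.existsUnique_path a (c • a)).unique hq hp
  have hv : ∀ i ≤ p.length, c • (p.getVert (p.length - i)) = p.getVert i := by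
    intro i hi
    have h1 : q.getVert i = p.getVert i := by rw [hpq]
    rw [← h1]
    simp only [q]
    rw [SimpleGraph.Walk.getVert_reverse, SimpleGraph.Walk.getVert_copy,
      SimpleGraph.Walk.getVert_map, SimpleGraph.Walk.length_copy, SimpleGraph.Walk.length_map]
    rfl
  rcases Nat.even_or_odd' p.length with ⟨m, hm | hm⟩
  · refine ⟨p.getVert m, ?_⟩
    have := hv m (by omega)
    rwa [show p.length - m = m by omega] at this
  · exfalso
    have h1 := hv m (by omega)
    have h2 := hv (m + 1) (by omega)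
    rw [show p.length - m = m + 1 by omega] at h1
    rw [show p.length - (m + 1) = m by omega] at h2
    exact hinv c _ _ (p.adj_getVert_succ (by omega : m < p.length)) ⟨h2, h1⟩

/-- The fixed point set of an automorphism of a tree is convex. -/
lemma fix_convex (hT : T.IsTree)
    (hadj : ∀ (g : G) (a b : V), T.Adj a b → T.Adj (g • a) (g • b))
    (c : G) {a b : V} (ha : c • a = a) (hb : c • b = b) (p : T.Walk a b) (hp : p.IsPath) :
    ∀ x ∈ p.support, c • x = x := by
  have ha' : actHom T hadj c a = a := ha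
  have hb' : actHom T hadj c b = b := hb
  let q : T.Walk a b := (p.map (actHom T hadj c)).copy ha' hb'
  have hinj : Function.Injective (actHom T hadj c) := fun x y h => by
    have h' : c • x = c • y := h
    exact smul_left_cancel c h'
  have hq : q.IsPath := by
    rw [SimpleGraph.Walk.isPath_copy]
    exact SimpleGraph.Walk.IsPath.map hinj hp
  have hpq : q = p := (hT.existsUnique_path a b).unique hq hp
  intro x hx
  obtain ⟨i, rfl, hi⟩ := SimpleGraph.Walk.mem_support_iff_exists_getVert.1 hx
  have h1 : q.getVert i = p.getVert i := by rw [hpq]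
  simp only [q] at h1
  rw [SimpleGraph.Walk.getVert_copy, SimpleGraph.Walk.getVert_map] at h1
  exact h1

end

/-- If `G` splits over `H` then every central involution belongs to `H`. -/
lemma central_involution_mem {G : Type u} [Group G] {H : Subgroup G}
    (hs : SplitsOver.{u, v} G H) {c : G} (hc : c * c = 1) (hcent : ∀ g : G, c * g = g * c) :
    c ∈ H := by
  obtain ⟨V, T, _, hT, hadj, hinv, hfix, horb, a, b, hab, hH⟩ := hs
  obtain ⟨a0, ha0⟩ := involution_fixes T hT hadj hinv c hc
  have hg : ∀ (g : G) (x : V), c • x = x → c • (g • x) = g • x := by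
    intro g x hx
    rw [← mul_smul, hcent, mul_smul, hx]
  push Not at hfix
  obtain ⟨g, hg0⟩ := hfix a0
  obtain ⟨p, hp, -⟩ := hT.existsUnique_path a0 (g • a0)
  have hconv := fix_convex T hT hadj c ha0 (hg g a0 ha0) p hp
  -- an edge fixed by `c`
  obtain ⟨x, y, hxy, hx, hy⟩ : ∃ x y, T.Adj x y ∧ c • x = x ∧ c • y = y := by
    obtain ⟨y, hadj', p', rfl⟩ := SimpleGraph.Walk.exists_eq_cons_of_ne (Ne.symm hg0) p
    exact ⟨a0, y, hadj', ha0, hconv y (by simp)⟩
  rw [hH]
  obtain ⟨k, hk⟩ := horb x y a b hxy hab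
  rcases hk with ⟨h1, h2⟩ | ⟨h1, h2⟩
  · rw [← h1, ← h2]
    exact ⟨hg k x hx, hg k y hy⟩
  · rw [← h1, ← h2]
    exact ⟨hg k y hy, hg k x hx⟩

/-- Pigeonhole: an infinite group of exponent two meets every subgroup of finite index
nontrivially. -/
lemma exists_involution_mem {H : Type*} [Group H] (K : Subgroup H) (hK : K.FiniteIndex)
    {E0 : Type*} [Group E0] [Infinite E0] (h2 : ∀ e : E0, e * e = 1) (ψ : E0 →* H)
    (hψ : Function.Injective ψ) : ∃ x : E0, x ≠ 1 ∧ ψ x ∈ K ∧ ψ x ≠ 1 ∧ ψ x * ψ x = 1 := by
  have hfin : Finite (H ⧸ K) := Subgroup.finite_quotient_of_finiteIndex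
  obtain ⟨e1, e2, hne, heq⟩ := Finite.exists_ne_map_eq_of_infinite (fun e : E0 => ((ψ e : H) : H ⧸ K))
  refine ⟨e1⁻¹ * e2, ?_, ?_, ?_, ?_⟩
  · intro h
    exact hne (inv_mul_eq_one.1 h)
  · rw [map_mul, map_inv]
    exact QuotientGroup.eq.1 heq
  · intro h
    rw [← map_one ψ] at h
    exact hne (inv_mul_eq_one.1 (hψ h))
  · rw [← map_mul, h2, map_one]

/-- A group with an infinite central elementary abelian 2-subgroup does not split over a virtually
infinite cyclic subgroup. -/
theorem not_splits {G : Type u} [Group G] {E0 : Type*} [Group E0] [Infinite E0]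
    (h2 : ∀ e : E0, e * e = 1) (ψ : E0 →* G) (hψ : Function.Injective ψ)
    (hcent : ∀ (e : E0) (g : G), ψ e * g = g * ψ e) :
    ¬ ∃ H : Subgroup G, IsVirtuallyZ H ∧ SplitsOver.{u, v} G H := by
  rintro ⟨H, ⟨K, hK, ⟨iso⟩⟩, hs⟩
  have hmem : ∀ e : E0, ψ e ∈ H := fun e =>
    central_involution_mem hs (by rw [← map_mul, h2, map_one]) (hcent e)
  let ψ' : E0 →* H := ψ.codRestrict H hmem
  have hψ' : Function.Injective ψ' := fun a b hab => hψ (by
    have := congrArg (Subtype.val) hab
    exact this)
  obtain ⟨x, -, hxK, hx1, hxx⟩ := exists_involution_mem K hK h2 ψ' hψ'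
  let y : K := ⟨ψ' x, hxK⟩
  have hyy : y * y = 1 := Subtype.ext hxx
  have h3 : iso y * iso y = 1 := by rw [← map_mul, hyy, map_one]
  have h4 : Multiplicative.toAdd (iso y) + Multiplicative.toAdd (iso y) = 0 := by
    rw [← toAdd_mul, h3, toAdd_one]
  have h5 : Multiplicative.toAdd (iso y) = 0 := by omega
  have h6 : iso y = 1 := by
    rw [← ofAdd_toAdd (iso y), h5, ofAdd_zero]
  have h7 : y = 1 := by
    rw [← map_one iso] at h6
    exact iso.injective h6
  exact hx1 (congrArg Subtype.val h7)

end Pool.Agent.Helper55.QRay
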